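import Mathlib
import Pool.Agent.TH551.HA.HallMain

/-!
# Power divisors of values of separable polynomials at sums of S-units: germs
-/

set_option autoImplicit false
set_option linter.unusedSectionVars false
set_option linter.unusedVariables false

namespace Pool.Agent.TH419.VQ

open Filter Topology Pool.Agent.TH932.Germs Pool.Agent.TH551.SU Pool.Agent.TH551.ZP
open Pool.Agent.TH551.SU.CRV Pool.Agent.TH551.HA

variable {s : ℕ} {b : Fin s → ℕ} {L : ℕ → ℝ} {r : ℕ} {hL : Tendsto L atTop atTop}
  {U : Fin (r + 1) → GG} {l : Fin (r + 1) → ℕ} {d : ℕ}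

/-- a nonzero germ which is integral outside the primes and at most 1 at the primes is not small -/
lemma dom_one (hb : ∀ v, (b v).Prime) (hbi : Function.Injective b) {ω : GG} (hq : QI b L ω)
    (hω0 : ω ≠ 0) (hv : ∀ v : Fin s, Dom b L (some v) ω 1) (hL : Tendsto L atTop atTop) :
    Dom b L none 1 ω := by
  intro ε hε
  have hs1 : (0 : ℝ) < s + 1 := by positivity
  have h2 := QI.lower hb hbi hL hq hω0 (ε / 2) (by positivity)
  have h3 : ∀ᶠ k in (UU : Filter ℕ), ∀ v : Fin s,
      av b (some v) (rep ω k) ≤ Real.exp (ε / (2 * (s + 1)) * L k) := by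
    refine eventually_all.2 fun v => ?_
    filter_upwards [hv v (ε / (2 * (s + 1))) (by positivity), rep_one] with k h6 h7
    rwa [h7, av_one hb, mul_one] at h6
  filter_upwards [h2, h3, rep_one, L_nonneg hL] with k h4 h5 h6 h7
  rw [h6, av_one hb]
  rw [Fintype.prod_option] at h4
  have h8 : ∏ v : Fin s, av b (some v) (rep ω k) ≤ Real.exp (ε / 2 * L k) := by
    calc ∏ v : Fin s, av b (some v) (rep ω k) ≤
        ∏ v : Fin s, Real.exp (ε / (2 * (s + 1)) * L k) :=
          Finset.prod_le_prod (fun v _ => av_nonneg hb _ _) fun v _ => h5 v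
      _ = Real.exp (s * (ε / (2 * (s + 1)) * L k)) := by
        rw [Finset.prod_const, Finset.card_univ, Fintype.card_fin, ← Real.exp_nat_mul]
      _ ≤ Real.exp (ε / 2 * L k) := by
        refine Real.exp_le_exp.2 ?_
        have h9 : (s : ℝ) * (ε / (2 * (s + 1)) * L k) = (s / (s + 1)) * (ε / 2 * L k) := by
          field_simp
        rw [h9]
        refine mul_le_of_le_one_left (by positivity) ?_
        rw [div_le_one hs1]
        linarith
  have h10 := av_nonneg hb none (rep ω k)
  have h11 : Real.exp (-(ε / 2 * L k)) ≤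
      av b none (rep ω k) * Real.exp (ε / 2 * L k) :=
    h4.trans (mul_le_mul_of_nonneg_left h8 h10)
  have h12 : (1 : ℝ) = Real.exp (ε / 2 * L k) * Real.exp (-(ε / 2 * L k)) := by
    rw [← Real.exp_add]
    simp
  rw [h12]
  calc Real.exp (ε / 2 * L k) * Real.exp (-(ε / 2 * L k)) ≤
      Real.exp (ε / 2 * L k) * (av b none (rep ω k) * Real.exp (ε / 2 * L k)) :=
        mul_le_mul_of_nonneg_left h11 (Real.exp_pos _).le
    _ = Real.exp (ε * L k) * av b none (rep ω k) := by
      have h13 : Real.exp (ε * L k) = Real.exp (ε / 2 * L k) * Real.exp (ε / 2 * L k) := by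
        rw [← Real.exp_add]
        ring_nf
      rw [h13]
      ring

/-- the homogenization -/
noncomputable def hom (F X E : Polynomial GG) (n : ℕ) : Polynomial GG :=
  ∑ i ∈ Finset.range (n + 1), Polynomial.C (F.coeff i) * (X ^ i * E ^ (n - i))

lemma hom_lift {F X E : Polynomial GG} (hF : ∀ i, F.coeff i ∈ KK L hL) (hX : Lift hL U l 1 X)
    (hE : Lift hL U l 1 E) (n : ℕ) : Lift hL U l n (hom F X E n) := by
  refine Lift.sum _ _ _ fun i hi => Lift.smul ?_ (hF i)
  have h := (hX.pow i).mul (hE.pow (n - i))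
  have h1 : 1 * i + 1 * (n - i) = n := by
    have := Finset.mem_range.1 hi
    omega
  rwa [h1] at h

lemma hom_eval {F X E : Polynomial GG} (hE1 : E.eval 1 = 1) {n : ℕ} (hn : F.natDegree ≤ n) :
    (hom F X E n).eval 1 = F.eval (X.eval 1) := by
  unfold hom
  rw [Polynomial.eval_finsetSum, Polynomial.eval_eq_sum_range' (Nat.lt_succ_of_le hn)]
  refine Finset.sum_congr rfl fun i _ => ?_
  simp [hE1]

/-- the derivative of a polynomial at 1, relative to the weight of `E` -/
lemma th_sum {ι : Type} (A : Finset ι) (p : ι → Polynomial GG) :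
    th (∑ i ∈ A, p i) = ∑ i ∈ A, th (p i) := by
  classical
  induction A using Finset.induction_on with
  | empty => simp [th]
  | insert a A ha ih => rw [Finset.sum_insert ha, Finset.sum_insert ha, th_add, ih]

lemma th_C_mul (c : GG) (p : Polynomial GG) :
    th (Polynomial.C c * p) = Polynomial.C c * th p := by
  unfold th
  rw [Polynomial.derivative_C_mul]
  ring

/-- the derivative of a power at 1 -/
lemma th_pow_eval (p : Polynomial GG) (k : ℕ) :
    (th (p ^ k)).eval 1 = (k : GG) * (p.eval 1) ^ (k - 1) * (th p).eval 1 := by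
  cases k with
  | zero => simp [th]
  | succ k =>
    rw [th_pow]
    simp

lemma hom_th {F X E : Polynomial GG} (hE1 : E.eval 1 = 1) {n : ℕ} (hn : F.natDegree ≤ n) :
    (th (hom F X E n)).eval 1 = (Polynomial.derivative F).eval (X.eval 1) *
      ((th X).eval 1 - X.eval 1 * (th E).eval 1) +
      (n : GG) * (th E).eval 1 * F.eval (X.eval 1) := by
  unfold hom
  rw [th_sum, Polynomial.eval_finsetSum]
  have h1 : (Polynomial.derivative F).eval (X.eval 1) =
      ∑ i ∈ Finset.range (n + 1), F.coeff i * ((i : GG) * (X.eval 1) ^ (i - 1)) := by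
    rw [Polynomial.derivative_eval, Polynomial.sum_over_range' F (by intro i; simp) (n + 1)
      (Nat.lt_succ_of_le hn)]
    refine Finset.sum_congr rfl fun i _ => ?_
    ring
  rw [h1, Polynomial.eval_eq_sum_range' (Nat.lt_succ_of_le hn) (x := X.eval 1), Finset.sum_mul,
    Finset.mul_sum, ← Finset.sum_add_distrib]
  refine Finset.sum_congr rfl fun i hi => ?_
  have hin : i ≤ n := Nat.lt_succ_iff.1 (Finset.mem_range.1 hi)
  rw [th_C_mul, th_mul]
  simp only [Polynomial.eval_mul, Polynomial.eval_add, Polynomial.eval_C, Polynomial.eval_pow,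
    th_pow_eval, hE1, one_pow, mul_one]
  have h2 : ((n - i : ℕ) : GG) = (n : GG) - i := by
    rw [Nat.cast_sub hin]
  rw [h2]
  rcases Nat.eq_zero_or_pos i with h0 | h0
  · subst h0
    simp
    ring
  · obtain ⟨j, rfl⟩ : ∃ j, i = j + 1 := ⟨i - 1, by omega⟩
    simp only [Nat.add_sub_cancel]
    push_cast
    ring

end Pool.Agent.TH419.VQ
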