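import Mathlib
import Pool.Agent.TH419.VQ.Germ

/-!
# Power divisors of values of separable polynomials at sums of S-units: the germ theorem
-/

set_option autoImplicit false
set_option linter.unusedSectionVars false
set_option linter.unusedVariables false

namespace Pool.Agent.TH419.VQ

open Filter Topology Pool.Agent.TH932.Germs Pool.Agent.TH551.SU Pool.Agent.TH551.ZP
open Pool.Agent.TH551.SU.CRV Pool.Agent.TH551.HA

variable {s : ℕ} {b : Fin s → ℕ} {L : ℕ → ℝ} {r : ℕ} {hL : Tendsto L atTop atTop}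
  {U : Fin (r + 1) → GG} {l : Fin (r + 1) → ℕ} {d : ℕ}

/-- the derivative of a sum of S-units is dominated by it -/
lemma der_dom (hnc : NcStmt) (hb : ∀ v, (b v).Prime)
    (hbi : Function.Injective b) (hs : Setup b hL U l d) (hd : 1 ≤ d) {p : Polynomial GG}
    (hp : Lift hL U l 1 p) {e : GG} (he : e ∈ KK L hL) (v : Option (Fin s)) :
    Dom b L v ((th p).eval 1 - p.eval 1 * e) (p.eval 1) := by
  refine Dom.sub hb hL (hp.th_dom hnc hb hbi hs hd v) ?_
  rw [mul_comm]
  exact Dom.smul hb hbi hL he (Dom.refl hb hL _ _)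

lemma eval_dom (hb : ∀ v, (b v).Prime) (hbi : Function.Injective b) {x : GG}
    (v : Option (Fin s)) (hx : Dom b L v x 1) {P : Polynomial GG}
    (hP : ∀ i, P.coeff i ∈ KK L hL) : Dom b L v (P.eval x) 1 := by
  rw [Polynomial.eval_eq_sum_range]
  refine Dom.sum hb hL _ _ _ fun i _ => ?_
  refine Dom.smul hb hbi hL (hP i) ?_
  have h := Dom.pow hb hL hx i
  rwa [one_pow] at h

/-- **power divisors of the values of a separable polynomial, for germs** -/
theorem germ (hnc : NcStmt) (hcs : CSStmt) (hb : ∀ v, (b v).Prime)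
    (hbi : Function.Injective b) (hs : Setup b hL U l d) (hU0 : U 0 = 1) (m n : ℕ)
    (hd : m + n + 4 ≤ d) (F P Q : Polynomial GG) (hF : ∀ i, F.coeff i ∈ KK L hL)
    (hP : ∀ i, P.coeff i ∈ KK L hL) (hQ : ∀ i, Q.coeff i ∈ KK L hL)
    (hPQ : P * F + Q * Polynomial.derivative F = 1) (hFn : F.natDegree ≤ n)
    (X Y Δ : Polynomial GG) (hX : Lift hL U l 1 X) (hY : Lift hL U l 1 Y)
    (hΔ : Lift hL U l 1 Δ) (t : GG) (htQ : QI b L t) (ht0 : t ≠ 0) (hti : Ing b L t)
    (hxi : Ing b L (X.eval 1)) (hDi : Ing b L (Δ.eval 1)) (hD0 : Δ.eval 1 ≠ 0)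
    (hy : Y.eval 1 = Δ.eval 1 * t) (hfx : F.eval (X.eval 1) = Δ.eval 1 * t ^ (m + 2))
    (hxK : X.eval 1 ∉ KK L hL) :
    Dom b L none (t ^ (m + 1)) (X.eval 1) := by
  classical
  set E : Polynomial GG := Polynomial.X ^ (l 0) with hE
  have hEL : Lift hL U l 1 E := by
    have h := Lift.gen (hL := hL) (U := U) (l := l) 0
    rw [hU0, Polynomial.C_1, one_mul] at h
    exact h
  have hE1 : E.eval 1 = 1 := by rw [hE]; simp
  set e : GG := (th E).eval 1 with he
  have heK : e ∈ KK L hL := by
    have h1 : e = (l 0 : GG) := by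
      have h2 := th_monomial (1 : GG) (l 0)
      rw [Polynomial.C_1, one_mul] at h2
      rw [he, hE, h2]
      simp
    rw [h1]
    exact natCast_mem _ _
  -- the identity of polynomials
  set P0 : Polynomial GG := Δ ^ (m + 1) * hom F X E n * E - Y ^ (m + 2) * E ^ n with hP0
  have hP0L : Lift hL U l (m + n + 2) P0 := by
    have h1 := ((hΔ.pow (m + 1)).mul (hom_lift hF hX hEL n)).mul hEL
    have h2 := (hY.pow (m + 2)).mul (hEL.pow n)
    have e1 : 1 * (m + 1) + n + 1 = m + n + 2 := by ring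
    have e2 : 1 * (m + 2) + 1 * n = m + n + 2 := by ring
    rw [e1] at h1
    rw [e2] at h2
    exact h1.sub h2
  set x := X.eval 1 with hx
  set D := Δ.eval 1 with hD
  have hP01 : P0.eval 1 = 0 := by
    rw [hP0]
    simp only [Polynomial.eval_sub, Polynomial.eval_mul, Polynomial.eval_pow, hE1, one_pow,
      mul_one, hom_eval hE1 hFn]
    rw [← hD, ← hx, hfx, hy]
    ring
  have hP00 : P0 = 0 := hP0L.eq_zero hcs hb hbi hs (by omega) hP01
  set x1 : GG := (th X).eval 1 - x * e with hx1
  set D1 : GG := (th Δ).eval 1 - D * e with hD1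
  set y1 : GG := (th Y).eval 1 - Y.eval 1 * e with hy1
  set F1 : GG := (Polynomial.derivative F).eval x with hF1
  have hkey : F1 * x1 = t ^ (m + 1) * (((m : GG) + 2) * y1 - ((m : GG) + 1) * (D1 * t)) := by
    have h1 : (th P0).eval 1 = 0 := by rw [hP00]; simp [th]
    rw [hP0, th_sub, th_mul, th_mul, th_mul] at h1
    simp only [Polynomial.eval_sub, Polynomial.eval_mul, Polynomial.eval_add,
      Polynomial.eval_pow, th_pow_eval, hE1, one_pow, mul_one, hom_eval hE1 hFn,
      hom_th hE1 hFn, ← he, ← hx, ← hD, ← hF1, ← hx1, hfx] at h1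
    have h2 : D ^ (m + 1) * (F1 * x1 - t ^ (m + 1) * (((m : GG) + 2) * y1 -
        ((m : GG) + 1) * (D1 * t))) = 0 := by
      rw [← h1, hy1, hD1, hy]
      push_cast
      ring
    have h5 := (mul_eq_zero.1 h2).resolve_left (pow_ne_zero _ hD0)
    exact sub_eq_zero.1 h5
  set ω : GG := P.eval x * (D * t * x1) + (Q.eval x * (((m : GG) + 2) * y1) +
    (-((m : GG) + 1)) * (Q.eval x * (D1 * t))) with hω
  have hx1ω : x1 = t ^ (m + 1) * ω := by
    have h1 : P.eval x * F.eval x + Q.eval x * F1 = 1 := by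
      have h2 := congrArg (Polynomial.eval x) hPQ
      simpa using h2
    calc x1 = (P.eval x * F.eval x + Q.eval x * F1) * x1 := by rw [h1, one_mul]
      _ = P.eval x * F.eval x * x1 + Q.eval x * (F1 * x1) := by ring
      _ = t ^ (m + 1) * ω := by
        rw [hkey, hfx, hω]
        ring
  -- the derivative of `x` does not vanish
  have hx10 : x1 ≠ 0 := by
    intro h0
    have h1 : Lift hL U l 2 (th X * E - X * th E) := (hX.th.mul hEL).sub (hX.mul hEL.th)
    have h2 : (th X * E - X * th E).eval 1 = 0 := by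
      simp only [Polynomial.eval_sub, Polynomial.eval_mul, hE1, mul_one]
      exact h0
    have h3 := h1.eq_zero hcs hb hbi hs (by omega) h2
    have hE0 : E ≠ 0 := by rw [hE]; exact pow_ne_zero _ Polynomial.X_ne_zero
    have hW : Polynomial.derivative X * E = X * Polynomial.derivative E := by
      unfold th at h3
      have h4 : Polynomial.X * (Polynomial.derivative X * E - X * Polynomial.derivative E) =
          0 := by
        linear_combination h3
      exact sub_eq_zero.1 ((mul_eq_zero.1 h4).resolve_left Polynomial.X_ne_zero)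
    obtain ⟨κ, hκ⟩ := prop_of_wr X E hE0 hW
    have hlc : E.coeff E.natDegree ≠ 0 := Polynomial.leadingCoeff_ne_zero.2 hE0
    have hκK : κ ∈ KK L hL := by
      have h4 := Lift.coeff_div hb hs (by omega) hX hEL E.natDegree hlc
      rw [hκ, Polynomial.coeff_C_mul, mul_div_assoc, div_self hlc, mul_one] at h4
      exact h4
    apply hxK
    have h5 : x = κ := by
      rw [hx, hκ]
      simp [hE1]
    rw [h5]
    exact hκK
  have hω0 : ω ≠ 0 := by
    intro h0
    apply hx10
    rw [hx1ω, h0, mul_zero]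
  -- integrality
  have qd : ∀ p : Polynomial GG, Lift hL U l 1 p → QI b L ((th p).eval 1 - p.eval 1 * e) := by
    intro p hp
    have h1 : Lift hL U l 2 (th p * E - p * th E) := (hp.th.mul hEL).sub (hp.mul hEL.th)
    have h2 := h1.qi hb hs
    simpa only [Polynomial.eval_sub, Polynomial.eval_mul, hE1, mul_one] using h2
  have qp : ∀ p : Polynomial GG, (∀ i, p.coeff i ∈ KK L hL) → QI b L (p.eval x) := by
    intro p hp
    have h1 := (hom_lift (n := p.natDegree) hp hX hEL).qi hb hs
    rwa [hom_eval hE1 le_rfl] at h1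
  have hωQ : QI b L ω := by
    have hDq : QI b L D := hΔ.qi hb hs
    have hm2 : ((m : GG) + 2) ∈ KK L hL := by
      have : ((m : GG) + 2) = ((m + 2 : ℕ) : GG) := by push_cast; ring
      rw [this]
      exact natCast_mem _ _
    have hm1 : (-((m : GG) + 1)) ∈ KK L hL := by
      have : ((m : GG) + 1) = ((m + 1 : ℕ) : GG) := by push_cast; ring
      rw [this]
      exact neg_mem (natCast_mem _ _)
    refine QI.add hb ?_ (QI.add hb ?_ ?_)
    · exact QI.mul hb (qp P hP) (QI.mul hb (QI.mul hb hDq htQ) (qd X hX))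
    · exact QI.mul hb (qp Q hQ) (QI.mul hb (QI.of_KK hb hL hm2) (qd Y hY))
    · exact QI.mul hb (QI.of_KK hb hL hm1) (QI.mul hb (qp Q hQ) (QI.mul hb (qd Δ hΔ) htQ))
  -- the sizes at the primes
  have hωv : ∀ v : Fin s, Dom b L (some v) ω 1 := by
    intro v
    have one : ∀ f g : GG, Dom b L (some v) f 1 → Dom b L (some v) g 1 →
        Dom b L (some v) (f * g) 1 := by
      intro f g hf hg
      have h := Dom.mul hb hf hg
      rwa [one_mul] at h
    have hdd : ∀ p : Polynomial GG, Lift hL U l 1 p → Dom b L (some v) (p.eval 1) 1 →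
        Dom b L (some v) ((th p).eval 1 - p.eval 1 * e) 1 := fun p hp h =>
      Dom.trans hb (der_dom hnc hb hbi hs (by omega) hp heK (some v)) h
    have hx' : Dom b L (some v) x1 1 := hdd X hX (hxi v)
    have hD' : Dom b L (some v) D1 1 := hdd Δ hΔ (hDi v)
    have hyi : Dom b L (some v) (Y.eval 1) 1 := by
      rw [hy]
      exact one _ _ (hDi v) (hti v)
    have hy' : Dom b L (some v) y1 1 := hdd Y hY hyi
    have hm2 : ((m : GG) + 2) ∈ KK L hL := by
      have : ((m : GG) + 2) = ((m + 2 : ℕ) : GG) := by push_cast; ring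
      rw [this]
      exact natCast_mem _ _
    have hm1 : (-((m : GG) + 1)) ∈ KK L hL := by
      have : ((m : GG) + 1) = ((m + 1 : ℕ) : GG) := by push_cast; ring
      rw [this]
      exact neg_mem (natCast_mem _ _)
    have hPv := eval_dom hb hbi (some v) (hxi v) hP
    have hQv := eval_dom hb hbi (some v) (hxi v) hQ
    refine Dom.add hb hL ?_ (Dom.add hb hL ?_ ?_)
    · exact one _ _ hPv (one _ _ (one _ _ (hDi v) (hti v)) hx')
    · exact one _ _ hQv (Dom.smul hb hbi hL hm2 hy')
    · exact Dom.smul hb hbi hL hm1 (one _ _ hQv (one _ _ hD' (hti v)))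
  have h1 := dom_one hb hbi hωQ hω0 hωv hL
  have h2 := Dom.mul hb (Dom.refl hb hL none (t ^ (m + 1))) h1
  rw [mul_one, ← hx1ω] at h2
  exact Dom.trans hb h2 (der_dom hnc hb hbi hs (by omega) hX heK none)

end Pool.Agent.TH419.VQ
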