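import Mathlib
import Pool.Agent.TH419.VQ.Germ2
import Pool.Agent.TH551.HA.Fin
import Pool.Agent.TH551.SU.Uni

/-!
# Power divisors of values of separable polynomials at sums of S-units
-/

set_option autoImplicit false
set_option linter.unusedSectionVars false
set_option linter.unusedVariables false

namespace Pool.Agent.TH419.VQ

open Filter Topology Pool.Agent.TH932.Germs Pool.Agent.TH551.SU Pool.Agent.TH551.ZP
open Pool.Agent.TH551.SU.CRV Pool.Agent.TH551.SU.Ht Pool.Agent.TH551.HA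

lemma gm_intCast (c : ℤ) : ((c : ℤ) : GG) = gm (fun _ => (c : ℚ)) := by
  cases c with
  | ofNat n =>
    simp only [Int.ofNat_eq_natCast, Int.cast_natCast]
    exact Pool.Agent.TH551.SU.Uni.gm_natCast n
  | negSucc n =>
    have h := Pool.Agent.TH551.SU.Uni.gm_natCast (n + 1)
    have h2 : ((Int.negSucc n : ℤ) : GG) = -((n + 1 : ℕ) : GG) := by
      rw [Int.cast_negSucc]
    rw [h2, h, gm_neg]
    congr 1

lemma gm_eval (F : Polynomial ℤ) (x : ℕ → ℤ) :
    (F.map (Int.castRingHom GG)).eval (gm fun t => (x t : ℚ)) =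
      gm fun t => ((F.eval (x t) : ℤ) : ℚ) := by
  rw [Polynomial.eval_map, Polynomial.eval₂_eq_sum_range]
  have h1 : ∀ i, (Int.castRingHom GG) (F.coeff i) * (gm fun t => (x t : ℚ)) ^ i =
      gm fun t => ((F.coeff i * x t ^ i : ℤ) : ℚ) := by
    intro i
    rw [eq_intCast, gm_intCast, gm_pow, gm_mul]
    congr 1
    funext t
    push_cast
    ring
  simp only [h1]
  rw [gm_sum']
  congr 1
  funext t
  rw [Polynomial.eval_eq_sum_range]
  push_cast
  rfl

/-- the size of a value of an integral polynomial -/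
lemma eval_le (F : Polynomial ℤ) : ∃ A : ℝ, 1 ≤ A ∧ ∀ x : ℤ,
    |((F.eval x : ℤ) : ℝ)| ≤ A * (max |(x : ℝ)| 1) ^ F.natDegree := by
  refine ⟨∑ i ∈ Finset.range (F.natDegree + 1), |(F.coeff i : ℝ)| + 1, ?_, ?_⟩
  · have : 0 ≤ ∑ i ∈ Finset.range (F.natDegree + 1), |(F.coeff i : ℝ)| :=
      Finset.sum_nonneg fun i _ => abs_nonneg _
    linarith
  · intro x
    have h1 : (1 : ℝ) ≤ max |(x : ℝ)| 1 := le_max_right _ _
    have h2 : (0 : ℝ) ≤ (max |(x : ℝ)| 1) ^ F.natDegree := by positivity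
    rw [Polynomial.eval_eq_sum_range]
    push_cast
    refine (Finset.abs_sum_le_sum_abs _ _).trans ?_
    rw [add_mul, Finset.sum_mul]
    refine le_trans (Finset.sum_le_sum fun i hi => ?_) (le_add_of_nonneg_right (by positivity))
    rw [abs_mul, abs_pow]
    refine mul_le_mul_of_nonneg_left ?_ (abs_nonneg _)
    calc |(x : ℝ)| ^ i ≤ (max |(x : ℝ)| 1) ^ i :=
          pow_le_pow_left₀ (abs_nonneg _) (le_max_left _ _) _
      _ ≤ (max |(x : ℝ)| 1) ^ F.natDegree :=
          pow_le_pow_right₀ h1 (Nat.lt_succ_iff.1 (Finset.mem_range.1 hi))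

/-- **Power divisors of values of a separable polynomial at sums of S-units.** -/
theorem fin (F : Polynomial ℤ) (hsep : (F.map (Int.castRingHom ℚ)).Separable)
    (hn : 1 ≤ F.natDegree) (m k : ℕ) (Γ : Subgroup ℚˣ) (hΓ : Γ.FG) (ε : ℝ) (hε : 0 < ε) :
    ∃ C : ℝ, ∀ M : ℝ, 1 ≤ M → ∀ (u : Fin k → Γ) (a b c : Fin k → ℤ), (∀ j, |(a j : ℝ)| ≤ M) →
      (∀ j, |(b j : ℝ)| ≤ M) → (∀ j, |(c j : ℝ)| ≤ M) → ∀ E : ℤ, E ≠ 0 → |(E : ℝ)| ≤ M →
      ∀ x D z : ℤ, (x : ℚ) = ∑ j, ((u j : ℚˣ) : ℚ) * a j →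
      (D : ℚ) = ∑ j, ((u j : ℚˣ) : ℚ) * b j →
      ((E * (D * z) : ℤ) : ℚ) = ∑ j, ((u j : ℚˣ) : ℚ) * c j →
      F.eval x = D * z ^ (m + 2) → D ≠ 0 → z ≠ 0 →
      ((m : ℝ) + 1) * Real.log |(z : ℝ)| ≤
        C * (1 + Real.log M) + (1 + ε) * Real.log (max |(x : ℝ)| 1) := by
  classical
  obtain ⟨s, bb, hb, hbi, hΓb⟩ := exists_base Γ hΓ
  obtain ⟨A, hA1, hA⟩ := eval_le F
  by_contra hcon
  push Not at hcon
  choose M hM u a b c ha hbM hc E hE0 hEM x D z hx hD hy hF hD0 hz0 hlt using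
    fun t : ℕ => hcon (t : ℝ)
  set n := F.natDegree with hndef
  set L : ℕ → ℝ := fun t => Real.log (max |(x t : ℝ)| 1) with hLdef
  have hn0 : (1 : ℝ) ≤ n := by exact_mod_cast hn
  have hm1 : (0 : ℝ) < (m : ℝ) + 1 := by positivity
  have hmax1 : ∀ t, (1 : ℝ) ≤ max |(x t : ℝ)| 1 := fun t => le_max_right _ _
  have hL0 : ∀ t, 0 ≤ L t := fun t => Real.log_nonneg (hmax1 t)
  have hexpL : ∀ t, Real.exp (L t) = max |(x t : ℝ)| 1 := fun t =>
    Real.exp_log (by linarith [hmax1 t])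
  have hlM : ∀ t, 0 ≤ Real.log (M t) := fun t => Real.log_nonneg (hM t)
  have hz1 : ∀ t, (1 : ℝ) ≤ |(z t : ℝ)| := fun t => by
    exact_mod_cast Int.one_le_abs (hz0 t)
  have hD1 : ∀ t, (1 : ℝ) ≤ |(D t : ℝ)| := fun t => by
    exact_mod_cast Int.one_le_abs (hD0 t)
  have hlogA : 0 ≤ Real.log A := Real.log_nonneg hA1
  have hFR : ∀ t, |((F.eval (x t) : ℤ) : ℝ)| = |(D t : ℝ)| * |(z t : ℝ)| ^ (m + 2) := by
    intro t
    rw [hF t]
    push_cast
    rw [abs_mul, abs_pow]
  have hFle : ∀ t, |((F.eval (x t) : ℤ) : ℝ)| ≤ Real.exp (Real.log A + n * L t) := by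
    intro t
    refine (hA (x t)).trans ?_
    rw [Real.exp_add, Real.exp_log (by linarith), ← hexpL t, ← Real.exp_nat_mul]
  have hzle : ∀ t, ((m : ℝ) + 1) * Real.log |(z t : ℝ)| ≤ Real.log A + n * L t := by
    intro t
    have h1 : |(z t : ℝ)| ^ (m + 1) ≤ Real.exp (Real.log A + n * L t) := by
      refine le_trans ?_ (hFle t)
      rw [hFR t]
      calc |(z t : ℝ)| ^ (m + 1) ≤ |(z t : ℝ)| ^ (m + 2) :=
            pow_le_pow_right₀ (hz1 t) (by omega)
        _ = 1 * |(z t : ℝ)| ^ (m + 2) := (one_mul _).symm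
        _ ≤ |(D t : ℝ)| * |(z t : ℝ)| ^ (m + 2) :=
            mul_le_mul_of_nonneg_right (hD1 t) (by positivity)
    have h2 := Real.log_le_log (by have := hz1 t; positivity) h1
    rw [Real.log_exp, Real.log_pow] at h2
    exact_mod_cast h2
  have hLt : ∀ t : ℕ, (t : ℝ) * (1 + Real.log (M t)) ≤ Real.log A + n * L t := by
    intro t
    have h1 := hlt t
    have h2 := hzle t
    have h3 : 0 ≤ (1 + ε) * L t := mul_nonneg (by linarith) (hL0 t)
    have h4 : (t : ℝ) * (1 + Real.log (M t)) + (1 + ε) * L t <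
        ((m : ℝ) + 1) * Real.log |(z t : ℝ)| := h1
    linarith
  have hL : Tendsto L atTop atTop := by
    have h1 : Tendsto (fun t : ℕ => ((t : ℝ) - Real.log A) / n) atTop atTop := by
      refine Tendsto.atTop_div_const (by linarith) ?_
      exact tendsto_atTop_add_const_right _ _ tendsto_natCast_atTop_atTop
    refine tendsto_atTop_mono (fun t => ?_) h1
    rw [div_le_iff₀ (by linarith)]
    have h2 := hLt t
    have h3 : 0 ≤ (t : ℝ) * Real.log (M t) := mul_nonneg (Nat.cast_nonneg t) (hlM t)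
    linarith
  have hLA : ∀ᶠ t : ℕ in atTop, Real.log A ≤ L t := hL.eventually_ge_atTop _
  -- the digits are negligible
  have hnegE : ∀ ε' : ℝ, 0 < ε' → ∀ᶠ t : ℕ in atTop, M t ≤ Real.exp (ε' * L t) := by
    intro ε' hε'
    have h1 : ∀ᶠ t : ℕ in atTop, ((n : ℝ) + 1) / ε' ≤ (t : ℝ) :=
      tendsto_natCast_atTop_atTop.eventually_ge_atTop _
    filter_upwards [h1, hLA] with t ht hAt
    rw [← Real.exp_log (show 0 < M t by linarith [hM t])]
    refine Real.exp_le_exp.2 ?_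
    have h2 : (t : ℝ) * Real.log (M t) ≤ ((n : ℝ) + 1) * L t := by
      have h3 := hLt t
      have h4 : (0 : ℝ) ≤ t := Nat.cast_nonneg t
      nlinarith
    rw [div_le_iff₀ hε'] at ht
    have h3 : ((n : ℝ) + 1) * Real.log (M t) ≤ (t * ε') * Real.log (M t) :=
      mul_le_mul_of_nonneg_right ht (hlM t)
    have h4 : (t * ε') * Real.log (M t) ≤ ε' * (((n : ℝ) + 1) * L t) := by
      calc (t * ε') * Real.log (M t) = ε' * (t * Real.log (M t)) := by ring
        _ ≤ ε' * (((n : ℝ) + 1) * L t) := mul_le_mul_of_nonneg_left h2 hε'.le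
    have h5 : ((n : ℝ) + 1) * Real.log (M t) ≤ ((n : ℝ) + 1) * (ε' * L t) := by linarith
    exact le_of_mul_le_mul_left h5 (by linarith)
  have hneg : ∀ w : ℕ → ℤ, (∀ t, |(w t : ℝ)| ≤ M t) → gm (fun t => (w t : ℚ)) ∈ KK L hL := by
    intro w hw
    refine ⟨w, fun _ => 1, ?_, Negl.one hL, by simp, by
      congr 1
      funext t
      simp⟩
    intro ε' hε'
    refine ev_of_atTop ((hnegE ε' hε').mono fun t ht => ?_)
    exact (hw t).trans ht
  -- integers bounded by a power of exp L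
  have hintle : ∀ w : ℕ → ℤ, (∀ᶠ t in (UU : Filter ℕ), |(w t : ℝ)| ≤
      Real.exp (((n : ℝ) + 2) * L t)) → ∀ᶠ t in (UU : Filter ℕ), ∀ v,
      av bb v (w t : ℚ) ≤ Real.exp (((n : ℝ) + 2) * L t) := by
    intro w hw
    filter_upwards [hw] with t ht v
    cases v with
    | none =>
      simp only [av]
      push_cast
      exact ht
    | some v =>
      have := Fact.mk (hb v)
      have h1 : av bb (some v) (w t : ℚ) ≤ 1 := by
        simp only [av]
        exact_mod_cast padicNorm.of_int (p := bb v) (w t)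
      refine h1.trans (Real.one_le_exp ?_)
      exact mul_nonneg (by linarith) (hL0 t)
  -- the germs
  set V : Fin k → GG := fun j => gm (fun t => ((u t j : ℚˣ) : ℚ)) with hV
  have hVS : ∀ j, GSU bb (V j) := fun j => ⟨_, rfl, fun t => hΓb _ (u t j).2⟩
  have hgerm : ∀ (w : ℕ → ℤ) (g : ℕ → Fin k → ℤ),
      (∀ t, (w t : ℚ) = ∑ j, ((u t j : ℚˣ) : ℚ) * g t j) →
      ∑ j, gm (fun t => (g t j : ℚ)) * V j = gm (fun t => (w t : ℚ)) := by
    intro w g hw
    have h1 : ∀ j, gm (fun t => (g t j : ℚ)) * V j =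
        gm (fun t => ((u t j : ℚˣ) : ℚ) * g t j) := by
      intro j
      rw [hV]
      simp only
      rw [gm_mul]
      congr 1
      funext t
      ring
    simp only [h1]
    rw [gm_sum']
    congr 1
    funext t
    rw [hw t]
  have hrepz : ∀ w : ℕ → ℤ, ∀ᶠ t in (UU : Filter ℕ), rep (gm (fun t => (w t : ℚ))) t = w t :=
    fun w => rep_gm _
  have hHB : ∀ (w : ℕ → ℤ) (g : ℕ → Fin k → ℤ),
      (∀ t, (w t : ℚ) = ∑ j, ((u t j : ℚˣ) : ℚ) * g t j) → (∀ t j, |(g t j : ℝ)| ≤ M t) →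
      (∀ᶠ t in (UU : Filter ℕ), |(w t : ℝ)| ≤ Real.exp (((n : ℝ) + 2) * L t)) →
      ∃ (m' : ℕ) (u' : Fin m' → GG) (c' : Fin m' → KK L hL), (∀ i, GSU bb (u' i)) ∧
        (∀ i, Mod bb L (u' i)) ∧ ∑ j, (c' j : GG) * u' j = gm (fun t => (w t : ℚ)) := by
    intro w g hw hg hwl
    have h1 := hbF s bb hb hbi L hL k V hVS
      (fun j => ⟨gm (fun t => (g t j : ℚ)), hneg _ fun t => hg t j⟩) ((n : ℝ) + 2) (by
        have h2 : ∑ j, ((⟨gm (fun t => (g t j : ℚ)), hneg _ fun t => hg t j⟩ : KK L hL) : GG) *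
            V j = gm (fun t => (w t : ℚ)) := hgerm w g hw
        rw [h2]
        filter_upwards [hrepz w, hintle w hwl] with t ht ht2 v
        rw [ht]
        exact ht2 v)
    obtain ⟨m', u', c', h3, h4, h5⟩ := h1
    exact ⟨m', u', c', h3, h4, h5.trans (hgerm w g hw)⟩
  have hxle : ∀ᶠ t in (UU : Filter ℕ), |(x t : ℝ)| ≤ Real.exp (((n : ℝ) + 2) * L t) := by
    refine Eventually.of_forall fun t => ?_
    calc |(x t : ℝ)| ≤ max |(x t : ℝ)| 1 := le_max_left _ _
      _ = Real.exp (L t) := (hexpL t).symm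
      _ ≤ Real.exp (((n : ℝ) + 2) * L t) := by
          refine Real.exp_le_exp.2 ?_
          nlinarith [hL0 t]
  have hFle' : ∀ᶠ t in (UU : Filter ℕ), |((F.eval (x t) : ℤ) : ℝ)| ≤
      Real.exp (((n : ℝ) + 1) * L t) := by
    refine ev_of_atTop (hLA.mono fun t ht => (hFle t).trans (Real.exp_le_exp.2 ?_))
    linarith
  have hDle : ∀ᶠ t in (UU : Filter ℕ), |(D t : ℝ)| ≤ Real.exp (((n : ℝ) + 2) * L t) := by
    filter_upwards [hFle'] with t ht
    calc |(D t : ℝ)| ≤ |(D t : ℝ)| * |(z t : ℝ)| ^ (m + 2) :=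
          le_mul_of_one_le_right (abs_nonneg _) (one_le_pow₀ (hz1 t))
      _ ≤ Real.exp (((n : ℝ) + 1) * L t) := by rw [← hFR t]; exact ht
      _ ≤ Real.exp (((n : ℝ) + 2) * L t) := by
          refine Real.exp_le_exp.2 ?_
          nlinarith [hL0 t]
  have hyle : ∀ᶠ t in (UU : Filter ℕ), |((E t * (D t * z t) : ℤ) : ℝ)| ≤
      Real.exp (((n : ℝ) + 2) * L t) := by
    filter_upwards [hFle', ev_of_atTop (hnegE 1 one_pos)] with t ht hMt
    push_cast
    rw [abs_mul, abs_mul]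
    have h1 : |(D t : ℝ)| * |(z t : ℝ)| ≤ Real.exp (((n : ℝ) + 1) * L t) := by
      refine le_trans ?_ ht
      rw [hFR t]
      refine mul_le_mul_of_nonneg_left ?_ (abs_nonneg _)
      exact le_self_pow₀ (hz1 t) (by omega)
    calc |(E t : ℝ)| * (|(D t : ℝ)| * |(z t : ℝ)|) ≤
        Real.exp (1 * L t) * Real.exp (((n : ℝ) + 1) * L t) :=
          mul_le_mul ((hEM t).trans hMt) h1 (by positivity) (Real.exp_pos _).le
      _ = Real.exp (((n : ℝ) + 2) * L t) := by
          rw [← Real.exp_add]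
          ring_nf
  obtain ⟨m1, u1, c1, hu1, hu1', hs1⟩ := hHB x a hx ha hxle
  obtain ⟨m2, u2, c2, hu2, hu2', hs2⟩ := hHB D b hD hbM hDle
  obtain ⟨m3, u3, c3, hu3, hu3', hs3⟩ := hHB (fun t => E t * (D t * z t)) c hy hc hyle
  -- the combined family
  set W : Fin (m1 + m2 + m3 + 1) → GG := Fin.cons 1 (Fin.append (Fin.append u1 u2) u3) with hW
  have hWall : ∀ (P : GG → Prop), P 1 → (∀ j, P (u1 j)) → (∀ j, P (u2 j)) →
      (∀ j, P (u3 j)) → ∀ j, P (W j) := by
    intro P h0 h1 h2 h3 j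
    rw [hW]
    refine Fin.cases ?_ (fun j => ?_) j
    · simpa using h0
    · rw [Fin.cons_succ]
      refine Fin.addCases (fun i => ?_) (fun i => ?_) j
      · rw [Fin.append_left]
        refine Fin.addCases (fun i' => ?_) (fun i' => ?_) i
        · rw [Fin.append_left]
          exact h1 i'
        · rw [Fin.append_right]
          exact h2 i'
      · rw [Fin.append_right]
        exact h3 i
  have hWg : ∀ j, GSU bb (W j) := hWall _ GSU.one hu1 hu2 hu3
  have hWm : ∀ j, Mod bb L (W j) := hWall _ (Mod.one hb hL) hu1' hu2' hu3'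
  obtain ⟨l, hl⟩ := fwF L hL (m1 + m2 + m3) W (fun j => GSU.ne_zero hb (hWg j)) (m + n + 4)
  have hs : Setup bb hL W l (m + n + 4) := ⟨hWg, hWm, hl⟩
  obtain ⟨X, hX, hX1⟩ := exists_lift (hL := hL) W l
    (fun j : Fin m1 => (Fin.castAdd m3 (Fin.castAdd m2 j)).succ) c1
  obtain ⟨Δ, hΔ, hΔ1⟩ := exists_lift (hL := hL) W l
    (fun j : Fin m2 => (Fin.castAdd m3 (Fin.natAdd m1 j)).succ) c2
  obtain ⟨Y0, hY0, hY01⟩ := exists_lift (hL := hL) W l
    (fun j : Fin m3 => (Fin.natAdd (m1 + m2) j).succ) c3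
  have hX2 : X.eval 1 = gm (fun t => (x t : ℚ)) := by
    rw [hX1, ← hs1]
    refine Finset.sum_congr rfl fun j _ => ?_
    rw [hW, Fin.cons_succ, Fin.append_left, Fin.append_left]
  have hΔ2 : Δ.eval 1 = gm (fun t => (D t : ℚ)) := by
    rw [hΔ1, ← hs2]
    refine Finset.sum_congr rfl fun j _ => ?_
    rw [hW, Fin.cons_succ, Fin.append_left, Fin.append_right]
  have hY2 : Y0.eval 1 = gm (fun t => ((E t * (D t * z t) : ℤ) : ℚ)) := by
    rw [hY01, ← hs3]
    refine Finset.sum_congr rfl fun j _ => ?_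
    rw [hW, Fin.cons_succ, Fin.append_right]
  have hEK : gm (fun t => (E t : ℚ)) ∈ KK L hL := hneg E hEM
  have hEne : gm (fun t => (E t : ℚ)) ≠ 0 := by
    rw [gm_ne_zero]
    exact Eventually.of_forall fun t => by exact_mod_cast hE0 t
  set Y : Polynomial GG := Polynomial.C (gm (fun t => (E t : ℚ)))⁻¹ * Y0 with hYdef
  have hY : Lift hL W l 1 Y := hY0.smul (inv_mem hEK)
  have hY1 : Y.eval 1 = gm (fun t => (D t : ℚ)) * gm (fun t => (z t : ℚ)) := by
    rw [hYdef, Polynomial.eval_mul, Polynomial.eval_C, hY2]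
    have h1 : gm (fun t => ((E t * (D t * z t) : ℤ) : ℚ)) =
        gm (fun t => (E t : ℚ)) * (gm (fun t => (D t : ℚ)) * gm (fun t => (z t : ℚ))) := by
      rw [gm_mul, gm_mul]
      congr 1
      funext t
      push_cast
      ring
    rw [h1, ← mul_assoc, inv_mul_cancel₀ hEne, one_mul]
  have hing : ∀ w : ℕ → ℤ, Ing bb L (gm (fun t => (w t : ℚ))) := by
    intro w v
    rw [← gm_one, dom_gm]
    intro ε' hε'
    filter_upwards [L_nonneg hL] with t ht
    rw [av_one hb, mul_one]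
    have := Fact.mk (hb v)
    have h1 : av bb (some v) (w t : ℚ) ≤ 1 := by
      simp only [av]
      exact_mod_cast padicNorm.of_int (p := bb v) (w t)
    exact h1.trans (Real.one_le_exp (by positivity))
  have hzQ : QI bb L (gm (fun t => (z t : ℚ))) := by
    refine ⟨fun _ => 1, Negl.one hL, by simp, ?_⟩
    filter_upwards [hrepz z] with t ht
    rw [ht]
    simp only [Int.cast_one, one_mul]
    exact GT.IntS.int bb (z t)
  -- the polynomials
  obtain ⟨P0, Q0, hPQ0⟩ := hsep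
  have hPQ : P0.map (Rat.castHom GG) * F.map (Int.castRingHom GG) +
      Q0.map (Rat.castHom GG) * Polynomial.derivative (F.map (Int.castRingHom GG)) = 1 := by
    have h1 := congrArg (Polynomial.map (Rat.castHom GG)) hPQ0
    have h2 : (F.map (Int.castRingHom ℚ)).map (Rat.castHom GG) = F.map (Int.castRingHom GG) := by
      rw [Polynomial.map_map]
      congr 1
      exact RingHom.ext_int _ _
    rw [Polynomial.map_add, Polynomial.map_mul, Polynomial.map_mul, Polynomial.map_one,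
      ← Polynomial.derivative_map, h2] at h1
    exact h1
  have hxK : X.eval 1 ∉ KK L hL := by
    rw [hX2]
    intro hK
    have h1 := Dom.of_KK hb hbi hL none hK
    rw [← gm_one, dom_gm] at h1
    obtain ⟨t, ht1, ht2⟩ := ((h1 (1 / 2) (by norm_num)).and
      (ev_of_atTop (hL.eventually_gt_atTop 0))).exists
    rw [av_one hb, mul_one] at ht1
    simp only [av] at ht1
    push_cast at ht1
    have h2 : max |(x t : ℝ)| 1 ≤ Real.exp (1 / 2 * L t) := by
      refine max_le ht1 (Real.one_le_exp (by linarith))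
    rw [← hexpL t] at h2
    have h3 := Real.exp_le_exp.1 h2
    linarith
  have key := germ ncF csF hb hbi hs (by rw [hW]; rfl) m n le_rfl
    (F.map (Int.castRingHom GG)) (P0.map (Rat.castHom GG)) (Q0.map (Rat.castHom GG))
    (fun i => by
      rw [Polynomial.coeff_map, eq_intCast]
      exact intCast_mem _ _)
    (fun i => by
      rw [Polynomial.coeff_map]
      exact SubfieldClass.ratCast_mem _ _)
    (fun i => by
      rw [Polynomial.coeff_map]
      exact SubfieldClass.ratCast_mem _ _)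
    hPQ (Polynomial.natDegree_map_le) X Y Δ hX hY hΔ (gm (fun t => (z t : ℚ))) hzQ
    (by
      rw [gm_ne_zero]
      exact Eventually.of_forall fun t => by exact_mod_cast hz0 t)
    (hing z) (by rw [hX2]; exact hing x) (by rw [hΔ2]; exact hing D)
    (by
      rw [hΔ2, gm_ne_zero]
      exact Eventually.of_forall fun t => by exact_mod_cast hD0 t)
    (by rw [hΔ2, hY1])
    (by
      rw [hX2, hΔ2, gm_eval, gm_pow, gm_mul]
      congr 1
      funext t
      rw [hF t]
      push_cast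
      ring)
    hxK
  rw [hX2, gm_pow, dom_gm] at key
  obtain ⟨t, ht1, ht2⟩ := ((key (ε / 2) (by positivity)).and
    (ev_of_atTop (hL.eventually_gt_atTop 0))).exists
  rw [av_pow hb] at ht1
  simp only [av] at ht1
  push_cast at ht1
  have h1 : |(z t : ℝ)| ^ (m + 1) ≤ Real.exp (ε / 2 * L t) * Real.exp (L t) := by
    refine ht1.trans (mul_le_mul_of_nonneg_left ?_ (Real.exp_pos _).le)
    rw [hexpL]
    exact le_max_left _ _
  rw [← Real.exp_add] at h1
  have h2 := Real.log_le_log (by have := hz1 t; positivity) h1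
  rw [Real.log_exp, Real.log_pow] at h2
  push_cast at h2
  have h3 := hlt t
  have h4 : 0 ≤ (t : ℝ) * (1 + Real.log (M t)) :=
    mul_nonneg (Nat.cast_nonneg t) (by linarith [hlM t])
  have h5 : (t : ℝ) * (1 + Real.log (M t)) + (1 + ε) * L t <
      ((m : ℝ) + 1) * Real.log |(z t : ℝ)| := h3
  nlinarith

end Pool.Agent.TH419.VQ
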