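import Mathlib
import Pool.Agent.TH419.HX.Hyp
import Pool.Agent.TH419.VQ.FinT

/-!
# Power divisors of values of separable polynomials: two sparse numbers, one arbitrary number
-/

set_option autoImplicit false

open Finset Filter Topology

namespace Pool.Agent.TH419.VQ

open Pool.Agent.TH419.WI Pool.Agent.TH419.HX

lemma prod_le {k j : ℕ} (v : Fin (k + 1) → ℕ) (hv : ∀ i, (v i : ℝ) ≤ v 0)
    (g : Fin j → Fin (k + 1)) : ∏ i, (v (g i) : ℝ) ≤ (v 0 : ℝ) ^ j := by
  calc ∏ i, (v (g i) : ℝ) ≤ ∏ _i : Fin j, (v 0 : ℝ) :=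
        Finset.prod_le_prod (fun i _ => by positivity) fun i _ => hv _
    _ = (v 0 : ℝ) ^ j := by rw [Finset.prod_const, Finset.card_univ, Fintype.card_fin]

lemma prod_le' {k j : ℕ} (v : Fin (k + 1) → ℕ) (w : ℝ) (hw : 0 ≤ w)
    (hv : ∀ i, (v i : ℝ) ≤ v 0) (hvw : ∀ i, i ≠ 0 → (v i : ℝ) ≤ v 0 * w)
    (g : Fin j → Fin (k + 1)) (h : ∃ i, g i ≠ 0) :
    ∏ i, (v (g i) : ℝ) ≤ (v 0 : ℝ) ^ j * w := by
  obtain ⟨i0, hi0⟩ := h
  have hj0 : 0 < j := by have := i0.2; omega
  calc ∏ i, (v (g i) : ℝ) = (∏ i ∈ Finset.univ.erase i0, (v (g i) : ℝ)) * v (g i0) := by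
        rw [Finset.prod_erase_mul _ _ (Finset.mem_univ i0)]
    _ ≤ (∏ _i ∈ Finset.univ.erase i0, (v 0 : ℝ)) * (v 0 * w) :=
        mul_le_mul (Finset.prod_le_prod (fun i _ => by positivity) fun i _ => hv _)
          (hvw _ hi0) (by positivity) (by positivity)
    _ = (v 0 : ℝ) ^ (j - 1) * (v 0 * w) := by
        rw [Finset.prod_const, Finset.card_erase_of_mem (Finset.mem_univ _), Finset.card_univ,
          Fintype.card_fin]
    _ = (v 0 : ℝ) ^ j * w := by
        have h2 : (v 0 : ℝ) ^ j = (v 0 : ℝ) ^ (j - 1) * v 0 := by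
          rw [← pow_succ]; congr 1; omega
        rw [h2]; ring

/-- the expansion of the product of the value of a polynomial and a power -/
lemma expand2 {k k' n m : ℕ} (f : Polynomial ℤ) (hfd : f.natDegree = n)
    (a : Fin (k + 1) → ℤ) (u : Fin (k + 1) → ℕ) (b : Fin (k' + 1) → ℤ) (v : Fin (k' + 1) → ℕ) :
    f.eval (∑ i, a i * (u i : ℤ)) * (∑ i, b i * (v i : ℤ)) ^ (m + 1) =
      ∑ p : (Σ j : Fin (n + 1), (Fin (j : ℕ) → Fin (k + 1))) × (Fin (m + 1) → Fin (k' + 1)),
        ((f.coeff (p.1.1 : ℕ) * ∏ i, a (p.1.2 i)) * ∏ i, b (p.2 i)) *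
          ((∏ i, (u (p.1.2 i) : ℤ)) * ∏ i, (v (p.2 i) : ℤ)) := by
  rw [eval_expand f hfd, Fintype.sum_pow (fun i => b i * (v i : ℤ)) (m + 1),
    Finset.sum_mul_sum, Fintype.sum_prod_type]
  refine Finset.sum_congr rfl fun σ _ => Finset.sum_congr rfl fun τ _ => ?_
  rw [Finset.prod_mul_distrib]
  ring

/-- **Power divisors of values of a separable polynomial at sparse integers**, with a sparse
cofactor. -/
theorem vq (f : Polynomial ℤ) (hsep : (f.map (Int.castRingHom ℚ)).Separable)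
    (hn : 1 ≤ f.natDegree) (m k k' H : ℕ) (S : Finset ℕ) (hS : ∀ p ∈ S, p.Prime) (η ε : ℝ)
    (hη : 0 < η) (hε : 0 < ε) :
    ∃ C : ℝ, ∀ (u : Fin (k + 1) → ℕ) (v : Fin (k' + 1) → ℕ) (a : Fin (k + 1) → ℤ)
      (b : Fin (k' + 1) → ℤ), (∀ i, Smooth S (u i)) → (∀ i, Smooth S (v i)) →
      (∀ i, i ≠ 0 → (u i : ℝ) ≤ (u 0 : ℝ) ^ (1 - η)) →
      (∀ i, i ≠ 0 → (v i : ℝ) * (u 0 : ℝ) ^ η ≤ v 0) → a 0 ≠ 0 → b 0 ≠ 0 →
      (∀ i, |a i| ≤ H) → (∀ i, |b i| ≤ H) → ∀ x D z : ℤ, x = ∑ i, a i * (u i : ℤ) →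
      D = ∑ i, b i * (v i : ℤ) → f.eval x = D * z ^ (m + 2) → f.eval x ≠ 0 →
      ((m : ℝ) + 1) * Real.log |(z : ℝ)| ≤ C + (1 + ε) * Real.log (max |(x : ℝ)| 1) := by
  classical
  obtain ⟨n, hnf⟩ : ∃ n, f.natDegree = n := ⟨_, rfl⟩
  have hn0 : 1 ≤ n := hnf ▸ hn
  let ι : Type := (Σ j : Fin (n + 1), (Fin (j : ℕ) → Fin (k + 1))) × (Fin (m + 1) → Fin (k' + 1))
  have hη'0 : 0 < min η 1 := lt_min hη one_pos
  obtain ⟨N, hN⟩ := nearRoot (ι := ι) S hS (m + 2)
    (f.leadingCoeff.natAbs * H ^ n * H ^ (m + 1)) (by omega)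
    ((n : ℝ) + ((m : ℝ) + 1) * (2 * n + 1)) (min η 1) 1 (by positivity) hη'0 one_pos
  obtain ⟨C0, hC0⟩ := fin f hsep hn m (k + 1 + (k' + 1) + N) (GamS S) (gamS_fg S) (ε / 2)
    (by positivity)
  obtain ⟨A, hA1, hA⟩ := eval_le f
  by_contra hcon
  push Not at hcon
  choose u v a b hu hv hdomu hdomv ha0 hb0 haH hbH x D z hx hD hF hF0 hlt using
    fun t : ℕ => hcon (t : ℝ)
  set η' : ℝ := min η 1 with hη'
  have hη'1 : η' ≤ 1 := min_le_right _ _
  have hn0r : (1 : ℝ) ≤ n := by exact_mod_cast hn0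
  have hu1 : ∀ t i, 1 ≤ u t i := fun t i => Nat.one_le_iff_ne_zero.2 (hu t i).1
  have hv1 : ∀ t i, 1 ≤ v t i := fun t i => Nat.one_le_iff_ne_zero.2 (hv t i).1
  have hdom' : ∀ t i, i ≠ 0 → (u t i : ℝ) ≤ (u t 0 : ℝ) ^ (1 - η') := by
    intro t i hi
    refine (hdomu t i hi).trans ?_
    apply Real.rpow_le_rpow_of_exponent_le
    · exact_mod_cast hu1 t 0
    · have : η' ≤ η := min_le_left _ _
      linarith
  have hD0 : ∀ t, D t ≠ 0 := fun t h0 => hF0 t (by rw [hF t, h0, zero_mul])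
  have hz0 : ∀ t, z t ≠ 0 := fun t h0 => hF0 t (by rw [hF t, h0, zero_pow (by omega), mul_zero])
  have hz1 : ∀ t, (1 : ℝ) ≤ |(z t : ℝ)| := fun t => by
    exact_mod_cast Int.one_le_abs (hz0 t)
  have hD1 : ∀ t, (1 : ℝ) ≤ |(D t : ℝ)| := fun t => by
    exact_mod_cast Int.one_le_abs (hD0 t)
  have hFR : ∀ t, |((f.eval (x t) : ℤ) : ℝ)| = |(D t : ℝ)| * |(z t : ℝ)| ^ (m + 2) := by
    intro t
    rw [hF t]
    push_cast
    rw [abs_mul, abs_pow]
  -- the sizes of the abscissas
  let Lx : ℕ → ℝ := fun t => Real.log (max |(x t : ℝ)| 1)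
  have hmax1 : ∀ t, (1 : ℝ) ≤ max |(x t : ℝ)| 1 := fun t => le_max_right _ _
  have hLx0 : ∀ t, 0 ≤ Lx t := fun t => Real.log_nonneg (hmax1 t)
  have hexpLx : ∀ t, Real.exp (Lx t) = max |(x t : ℝ)| 1 := fun t =>
    Real.exp_log (by linarith [hmax1 t])
  have hFle : ∀ t, |((f.eval (x t) : ℤ) : ℝ)| ≤ Real.exp (Real.log A + n * Lx t) := by
    intro t
    refine (hA (x t)).trans ?_
    rw [Real.exp_add, Real.exp_log (by linarith), hnf, ← hexpLx t, ← Real.exp_nat_mul]
  have hzle : ∀ t, ((m : ℝ) + 1) * Real.log |(z t : ℝ)| ≤ Real.log A + n * Lx t := by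
    intro t
    have h1 : |(z t : ℝ)| ^ (m + 1) ≤ Real.exp (Real.log A + n * Lx t) := by
      refine le_trans ?_ (hFle t)
      rw [hFR t]
      calc |(z t : ℝ)| ^ (m + 1) ≤ |(z t : ℝ)| ^ (m + 2) :=
            pow_le_pow_right₀ (hz1 t) (by omega)
        _ = 1 * |(z t : ℝ)| ^ (m + 2) := (one_mul _).symm
        _ ≤ |(D t : ℝ)| * |(z t : ℝ)| ^ (m + 2) :=
            mul_le_mul_of_nonneg_right (hD1 t) (by positivity)
    have h2 := Real.log_le_log (by have := hz1 t; positivity) h1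
    rw [Real.log_exp, Real.log_pow] at h2
    exact_mod_cast h2
  have hLxt : Tendsto Lx atTop atTop := by
    have h1 : Tendsto (fun t : ℕ => ((t : ℝ) - Real.log A) / n) atTop atTop := by
      refine Tendsto.atTop_div_const (by linarith) ?_
      exact tendsto_atTop_add_const_right _ _ tendsto_natCast_atTop_atTop
    refine tendsto_atTop_mono (fun t => ?_) h1
    rw [div_le_iff₀ (by linarith)]
    have h2 := hzle t
    have h3 : (t : ℝ) + (1 + ε) * Lx t < ((m : ℝ) + 1) * Real.log |(z t : ℝ)| := hlt t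
    have h4 : 0 ≤ (1 + ε) * Lx t := mul_nonneg (by linarith) (hLx0 t)
    linarith
  let X : ℕ → ℝ := fun t => |(x t : ℝ)|
  have hXt : Tendsto X atTop atTop := by
    have h1 : Tendsto (fun t => Real.exp (Lx t) + (-1)) atTop atTop :=
      tendsto_atTop_add_const_right _ _ (Real.tendsto_exp_atTop.comp hLxt)
    refine tendsto_atTop_mono (fun t => ?_) h1
    rw [hexpLx]
    have h2 : max |(x t : ℝ)| 1 ≤ |(x t : ℝ)| + 1 :=
      max_le (by linarith) (by linarith [abs_nonneg (x t : ℝ)])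
    simp only [X]
    linarith
  have haM : ∀ t i, |(a t i : ℝ)| ≤ (H : ℝ) + 1 := fun t i => by
    have h1 : |(a t i : ℝ)| ≤ H := by exact_mod_cast haH t i
    linarith
  have hbM : ∀ t i, |(b t i : ℝ)| ≤ (H : ℝ) + 1 := fun t i => by
    have h1 : |(b t i : ℝ)| ≤ H := by exact_mod_cast hbH t i
    linarith
  have hH1 : (1 : ℝ) ≤ (H : ℝ) + 1 := by
    have : (0 : ℝ) ≤ H := Nat.cast_nonneg H
    linarith
  obtain ⟨hL, -, hXup, hXlow, -⟩ := sizes hη'0 u a (fun _ => (H : ℝ) + 1) X (fun _ => hH1) hu1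
    hdom' haM ha0
    (fun t => by
      simp only [X]
      rw [hx t]
      push_cast
      rfl) hXt
    (fun ε' hε' => ((tendsto_rpow_atTop hε').comp hXt).eventually_ge_atTop _)
  set L : ℕ → ℝ := fun t => Real.log (u t 0) with hLdef
  have hu0pos : ∀ t, (0 : ℝ) < u t 0 := fun t => by
    have := hu1 t 0
    exact_mod_cast this
  have hu01 : ∀ t, (1 : ℝ) ≤ u t 0 := fun t => by exact_mod_cast hu1 t 0
  have hv0pos : ∀ t, (0 : ℝ) < v t 0 := fun t => by
    have := hv1 t 0
    exact_mod_cast this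
  have hL0 : ∀ t, 0 ≤ L t := fun t => Real.log_nonneg (hu01 t)
  have hexpL : ∀ t, Real.exp (L t) = u t 0 := fun t => Real.exp_log (hu0pos t)
  have hule : ∀ t i, (u t i : ℝ) ≤ u t 0 := by
    intro t i
    by_cases hi : i = 0
    · rw [hi]
    · refine (hdom' t i hi).trans ?_
      calc (u t 0 : ℝ) ^ (1 - η') ≤ (u t 0 : ℝ) ^ (1 : ℝ) :=
            Real.rpow_le_rpow_of_exponent_le (hu01 t) (by linarith)
        _ = u t 0 := Real.rpow_one _
  have hw0 : ∀ t, 0 ≤ Real.exp (-(η' * L t)) := fun t => (Real.exp_pos _).le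
  have hw1 : ∀ t, Real.exp (-(η' * L t)) ≤ 1 := fun t => by
    rw [← Real.exp_zero]
    exact Real.exp_le_exp.2 (by have := mul_nonneg hη'0.le (hL0 t); linarith)
  have hdomv' : ∀ t i, i ≠ 0 → (v t i : ℝ) ≤ v t 0 * Real.exp (-(η' * L t)) := by
    intro t i hi
    have h1 := hdomv t i hi
    have h2 : Real.exp (η' * L t) ≤ (u t 0 : ℝ) ^ η := by
      rw [Real.rpow_def_of_pos (hu0pos t)]
      refine Real.exp_le_exp.2 ?_
      have h3 : η' ≤ η := min_le_left _ _
      calc η' * L t ≤ η * L t := mul_le_mul_of_nonneg_right h3 (hL0 t)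
        _ = Real.log (u t 0) * η := mul_comm _ _
    have h3 : (v t i : ℝ) * Real.exp (η' * L t) ≤ v t 0 :=
      (mul_le_mul_of_nonneg_left h2 (Nat.cast_nonneg _)).trans h1
    rw [Real.exp_neg, ← div_eq_mul_inv, le_div_iff₀ (Real.exp_pos _)]
    exact h3
  have hvle : ∀ t i, (v t i : ℝ) ≤ v t 0 := by
    intro t i
    by_cases hi : i = 0
    · rw [hi]
    · exact (hdomv' t i hi).trans (mul_le_of_le_one_right (hv0pos t).le (hw1 t))
  have haS : ∀ i, Sub L fun t => (a t i : ℝ) := fun i =>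
    (Sub.const hL ((H : ℝ) + 1)).mono (Eventually.of_forall fun t => by
      rw [abs_of_nonneg (by linarith : (0 : ℝ) ≤ (H : ℝ) + 1)]; exact haM t i)
  have hbS : ∀ i, Sub L fun t => (b t i : ℝ) := fun i =>
    (Sub.const hL ((H : ℝ) + 1)).mono (Eventually.of_forall fun t => by
      rw [abs_of_nonneg (by linarith : (0 : ℝ) ≤ (H : ℝ) + 1)]; exact hbM t i)
  -- the size of the cofactor
  have hDlow : ∀ᶠ t in atTop, (v t 0 : ℝ) / 2 ≤ |(D t : ℝ)| := by
    have h1 := W_small hη'0 hL (fun t => v t 0) (fun t (i : Fin k') => v t i.succ)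
      (fun t i => b t i.succ) (Eventually.of_forall fun t i => hdomv' t _ (Fin.succ_ne_zero i))
      (fun i => hbS _)
    filter_upwards [h1] with t ht
    have h2 : (D t : ℝ) = (b t 0 : ℝ) * v t 0 + ∑ i : Fin k', (v t i.succ : ℝ) * b t i.succ := by
      rw [hD t]
      push_cast
      rw [Fin.sum_univ_succ]
      congr 1
      exact Finset.sum_congr rfl fun i _ => mul_comm _ _
    have h3 : (v t 0 : ℝ) ≤ |(b t 0 : ℝ) * v t 0| := by
      rw [abs_mul, abs_of_pos (hv0pos t)]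
      have h4 : (1 : ℝ) ≤ |(b t 0 : ℝ)| := by
        exact_mod_cast Int.one_le_abs (hb0 t)
      nlinarith [hv0pos t]
    have h4 : |(b t 0 : ℝ) * v t 0| ≤ |(D t : ℝ)| +
        |∑ i : Fin k', (v t i.succ : ℝ) * b t i.succ| := by
      have h5 : (b t 0 : ℝ) * v t 0 = D t - ∑ i : Fin k', (v t i.succ : ℝ) * b t i.succ := by
        rw [h2]; ring
      rw [h5]
      exact abs_sub _ _
    linarith
  have hvup : ∀ᶠ t in atTop, (v t 0 : ℝ) ≤ Real.exp ((2 * (n : ℝ) + 1) * L t) := by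
    filter_upwards [hDlow, hXup, hXt.eventually_ge_atTop 1,
      ev_const_le hL (2 * A) 1 one_pos] with t h1 h2 h3 h4
    have h5 : |(D t : ℝ)| ≤ A * Real.exp (2 * L t) ^ n := by
      calc |(D t : ℝ)| ≤ |(D t : ℝ)| * |(z t : ℝ)| ^ (m + 2) :=
            le_mul_of_one_le_right (abs_nonneg _) (one_le_pow₀ (hz1 t))
        _ = |((f.eval (x t) : ℤ) : ℝ)| := (hFR t).symm
        _ ≤ A * (max |(x t : ℝ)| 1) ^ n := by
            have := hA (x t)
            rwa [hnf] at this
        _ ≤ A * Real.exp (2 * L t) ^ n := by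
            refine mul_le_mul_of_nonneg_left (pow_le_pow_left₀ (by positivity) ?_ _)
              (by linarith)
            exact max_le h2 (h3.trans h2)
    calc (v t 0 : ℝ) ≤ 2 * A * Real.exp (2 * L t) ^ n := by linarith
      _ ≤ Real.exp (1 * L t) * Real.exp (2 * L t) ^ n :=
          mul_le_mul_of_nonneg_right h4 (by positivity)
      _ = Real.exp ((2 * (n : ℝ) + 1) * L t) := by
          rw [← Real.exp_nat_mul, ← Real.exp_add]
          congr 1
          ring
  -- the data for the theorem on roots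
  let σ0 : ι := (⟨Fin.last n, fun _ => 0⟩, fun _ => 0)
  let ρ : ℕ → ℕ := fun t => u t 0 ^ n * v t 0 ^ (m + 1)
  let e0 : ℕ → ℤ := fun t => f.leadingCoeff * a t 0 ^ n * b t 0 ^ (m + 1)
  let r : ℕ → ι → ℕ := fun t σ => if σ = σ0 then 1 else
    (∏ i, u t (σ.1.2 i)) * ∏ i, v t (σ.2 i)
  let lam : ℕ → ι → ℤ := fun t σ => if σ = σ0 then 0 else
    (e0 t).sign * ((f.coeff (σ.1.1 : ℕ) * ∏ i, a t (σ.1.2 i)) * ∏ i, b t (σ.2 i))
  have hlc : f.leadingCoeff ≠ 0 := by
    intro h0
    rw [Polynomial.leadingCoeff_eq_zero] at h0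
    rw [h0, Polynomial.natDegree_zero] at hnf
    omega
  have he00 : ∀ t, e0 t ≠ 0 := fun t =>
    mul_ne_zero (mul_ne_zero hlc (pow_ne_zero _ (ha0 t))) (pow_ne_zero _ (hb0 t))
  have hρeq : ∀ t, ((ρ t : ℕ) : ℝ) = (u t 0 : ℝ) ^ n * (v t 0 : ℝ) ^ (m + 1) := fun t => by
    simp only [ρ]
    push_cast
    rfl
  have hρ1 : ∀ t, (1 : ℝ) ≤ ρ t := fun t => by
    have : 1 ≤ ρ t := Nat.one_le_iff_ne_zero.2 (mul_ne_zero
      (pow_ne_zero _ (by have := hu1 t 0; omega)) (pow_ne_zero _ (by have := hv1 t 0; omega)))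
    exact_mod_cast this
  have hr1 : ∀ t σ, (r t σ : ℝ) ≤ ρ t * Real.exp (-(η' * L t)) := by
    intro t σ
    have hvpow : (1 : ℝ) ≤ (v t 0 : ℝ) ^ (m + 1) := by
      have : (1 : ℝ) ≤ v t 0 := by exact_mod_cast hv1 t 0
      exact one_le_pow₀ this
    by_cases hσ : σ = σ0
    · have h1 := prod_le_dom (j := 0) (d := n) hη'1 (hu1 t) (hdom' t) hη'0.le (Nat.zero_le n)
        (fun i => i.elim0) (Or.inl (by omega))
      simp only [Finset.univ_eq_empty, Finset.prod_empty, Nat.cast_one] at h1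
      simp only [r, if_pos hσ]
      rw [hρeq]
      push_cast at h1 ⊢
      calc (1 : ℝ) ≤ (u t 0 : ℝ) ^ n * Real.exp (-(η' * L t)) := h1
        _ = ((u t 0 : ℝ) ^ n * Real.exp (-(η' * L t))) * 1 := (mul_one _).symm
        _ ≤ ((u t 0 : ℝ) ^ n * Real.exp (-(η' * L t))) * (v t 0 : ℝ) ^ (m + 1) :=
            mul_le_mul_of_nonneg_left hvpow (by positivity)
        _ = (u t 0 : ℝ) ^ n * (v t 0 : ℝ) ^ (m + 1) * Real.exp (-(η' * L t)) := by ring
    · simp only [r, if_neg hσ]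
      rw [hρeq]
      push_cast
      have hv' : ∏ i, (v t (σ.2 i) : ℝ) ≤ (v t 0 : ℝ) ^ (m + 1) := prod_le _ (hvle t) σ.2
      have hun : ∏ i, (u t (σ.1.2 i) : ℝ) ≤ (u t 0 : ℝ) ^ n := by
        refine (prod_le _ (hule t) σ.1.2).trans ?_
        exact pow_le_pow_right₀ (hu01 t) (Nat.lt_succ_iff.1 σ.1.1.2)
      by_cases hτ : ∃ i, σ.2 i ≠ 0
      · have h1 := prod_le' (v t) _ (hw0 t) (hvle t) (hdomv' t) σ.2 hτ
        calc (∏ i, (u t (σ.1.2 i) : ℝ)) * ∏ i, (v t (σ.2 i) : ℝ) ≤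
            (u t 0 : ℝ) ^ n * ((v t 0 : ℝ) ^ (m + 1) * Real.exp (-(η' * L t))) :=
              mul_le_mul hun h1 (by positivity) (by positivity)
          _ = (u t 0 : ℝ) ^ n * (v t 0 : ℝ) ^ (m + 1) * Real.exp (-(η' * L t)) := by ring
      · push Not at hτ
        have h1 : ((∏ i, u t (σ.1.2 i) : ℕ) : ℝ) ≤
            ((u t 0 ^ n : ℕ) : ℝ) * Real.exp (-(η' * Real.log (u t 0))) := by
          refine prod_le_dom hη'1 (hu1 t) (hdom' t) hη'0.le (Nat.lt_succ_iff.1 σ.1.1.2) σ.1.2 ?_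
          by_contra hno
          push Not at hno
          apply hσ
          obtain ⟨⟨j, g⟩, τ⟩ := σ
          have hj : j = Fin.last n := by
            apply Fin.ext
            have h1 := j.2
            have h2 := hno.1
            simp only [Fin.val_last]
            simp only at h2
            omega
          subst hj
          have hg : g = fun _ => 0 := funext hno.2
          have hτ' : τ = fun _ => 0 := funext hτ
          rw [hg, hτ']
        push_cast at h1
        calc (∏ i, (u t (σ.1.2 i) : ℝ)) * ∏ i, (v t (σ.2 i) : ℝ) ≤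
            ((u t 0 : ℝ) ^ n * Real.exp (-(η' * L t))) * (v t 0 : ℝ) ^ (m + 1) :=
              mul_le_mul h1 hv' (by positivity) (by positivity)
          _ = (u t 0 : ℝ) ^ n * (v t 0 : ℝ) ^ (m + 1) * Real.exp (-(η' * L t)) := by ring
  have hsignle : ∀ w : ℤ, |((w.sign : ℤ) : ℝ)| ≤ 1 := by
    intro w
    have h1 : |w.sign| ≤ 1 := by
      rcases lt_trichotomy w 0 with h | h | h
      · rw [Int.sign_eq_neg_one_of_neg h]; simp
      · rw [h]; simp
      · rw [Int.sign_eq_one_of_pos h]; simp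
    exact_mod_cast h1
  have hlamS : ∀ σ, Sub L fun t => (lam t σ : ℝ) := by
    intro σ
    by_cases hσ : σ = σ0
    · simp only [lam, if_pos hσ]
      exact_mod_cast Sub.const hL 0
    · simp only [lam, if_neg hσ]
      have h0 : Sub L fun t => (((e0 t).sign : ℤ) : ℝ) :=
        (Sub.const hL 1).mono (Eventually.of_forall fun t => by
          rw [abs_one]
          exact hsignle _)
      have h1 := h0.mul (((Sub.const hL ((f.coeff (σ.1.1 : ℕ) : ℤ) : ℝ)).mul
        (Sub.prod hL Finset.univ fun i (_ : i ∈ (Finset.univ : Finset (Fin (σ.1.1 : ℕ)))) =>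
          haS (σ.1.2 i))).mul
        (Sub.prod hL Finset.univ fun i (_ : i ∈ (Finset.univ : Finset (Fin (m + 1)))) =>
          hbS (σ.2 i)))
      intro ε' hε'
      filter_upwards [h1 ε' hε'] with t ht
      push_cast
      exact ht
  -- the value
  have hval : ∀ t, ((e0 t).sign : ℤ) * (D t * z t) ^ (m + 2) =
      (e0 t).natAbs * (ρ t : ℤ) + ∑ σ, (r t σ : ℤ) * lam t σ := by
    intro t
    have h0 : (D t * z t) ^ (m + 2) = f.eval (x t) * D t ^ (m + 1) := by
      rw [hF t]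
      ring
    rw [h0, hx t, hD t, expand2 f hnf]
    let T : ι → ℤ := fun p => ((f.coeff (p.1.1 : ℕ) * ∏ i, a t (p.1.2 i)) *
      ∏ i, b t (p.2 i)) * ((∏ i, (u t (p.1.2 i) : ℤ)) * ∏ i, (v t (p.2 i) : ℤ))
    have h2 : (e0 t).sign * ∑ σ : ι, T σ =
        (e0 t).sign * T σ0 + ∑ σ : ι, (r t σ : ℤ) * lam t σ := by
      have h3 : ∀ σ : ι, (e0 t).sign * T σ =
          (if σ = σ0 then (e0 t).sign * T σ else 0) + (r t σ : ℤ) * lam t σ := by
        intro σ
        by_cases hσ : σ = σ0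
        · simp only [r, lam, if_pos hσ]; ring
        · simp only [r, lam, if_neg hσ, T]; push_cast; ring
      rw [Finset.mul_sum]
      conv_lhs => rw [Finset.sum_congr rfl fun σ _ => h3 σ]
      rw [Finset.sum_add_distrib, Finset.sum_ite_eq' Finset.univ σ0, if_pos (Finset.mem_univ _)]
    have h3 : (e0 t).sign * T σ0 = (e0 t).natAbs * (ρ t : ℤ) := by
      have h4 : T σ0 = e0 t * (ρ t : ℤ) := by
        simp only [T, σ0, ρ, e0]
        rw [Polynomial.leadingCoeff, hnf]
        simp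
      rw [h4, ← mul_assoc, Int.sign_mul_self_eq_natAbs]
    rw [← h3]
    exact h2
  have hW := W_small hη'0 hL ρ r lam (Eventually.of_forall hr1) hlamS
  have hρup : ∀ᶠ t in atTop, (ρ t : ℝ) ≤
      Real.exp (((n : ℝ) + ((m : ℝ) + 1) * (2 * n + 1)) * L t) := by
    filter_upwards [hvup] with t ht
    rw [hρeq]
    calc (u t 0 : ℝ) ^ n * (v t 0 : ℝ) ^ (m + 1) ≤
        Real.exp (L t) ^ n * Real.exp ((2 * (n : ℝ) + 1) * L t) ^ (m + 1) := by
          rw [hexpL]
          exact mul_le_mul_of_nonneg_left (pow_le_pow_left₀ (by positivity) ht _) (by positivity)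
      _ = Real.exp (((n : ℝ) + ((m : ℝ) + 1) * (2 * n + 1)) * L t) := by
          rw [← Real.exp_nat_mul, ← Real.exp_nat_mul, ← Real.exp_add]
          congr 1
          push_cast
          ring
  have hsub : ∀ ε' : ℝ, 0 < ε' → ∃ᶠ t in atTop, ∃ (E : ℤ) (w : Fin N → ℚˣ) (c : Fin N → ℤ),
        E ≠ 0 ∧ |(E : ℝ)| ≤ Real.exp (ε' * L t) ∧ (∀ j, w j ∈ GamS S) ∧
        (∀ j, |(c j : ℝ)| ≤ Real.exp (ε' * L t)) ∧
        (E : ℚ) * (D t * z t).natAbs = ∑ j, ((w j : ℚˣ) : ℚ) * c j := by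
    refine hN L hL ρ r lam (fun t => (e0 t).natAbs) (fun _ => 1)
      (fun t => (D t * z t).natAbs)
      (fun t => smooth_mul (smooth_pow (hu t 0) n) (smooth_pow (hv t 0) (m + 1))) ?_ hρup
      (Eventually.of_forall hr1) hlamS ?_ (fun _ => le_rfl) ?_ ?_
    · intro t σ
      by_cases hσ : σ = σ0
      · simp only [r, if_pos hσ]; exact smooth_one S
      · simp only [r, if_neg hσ]
        exact smooth_mul (smooth_prod _ fun i _ => hu t _) (smooth_prod _ fun i _ => hv t _)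
    · intro t
      refine ⟨Int.natAbs_pos.2 (he00 t), ?_⟩
      simp only [e0]
      rw [Int.natAbs_mul, Int.natAbs_mul, Int.natAbs_pow, Int.natAbs_pow]
      have h1 : (a t 0).natAbs ≤ H := by
        have := haH t 0
        rw [Int.abs_eq_natAbs] at this
        exact_mod_cast this
      have h2 : (b t 0).natAbs ≤ H := by
        have := hbH t 0
        rw [Int.abs_eq_natAbs] at this
        exact_mod_cast this
      exact Nat.mul_le_mul (Nat.mul_le_mul_left _ (Nat.pow_le_pow_left h1 _))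
        (Nat.pow_le_pow_left h2 _)
    · exact_mod_cast Sub.const hL 1
    · filter_upwards [hW] with t hWt
      have h1 : (((e0 t).sign : ℤ) : ℝ) * ((D t : ℝ) * z t) ^ (m + 2) =
          ((e0 t).natAbs : ℝ) * (ρ t : ℝ) + ∑ σ, (r t σ : ℝ) * lam t σ := by
        have h := congrArg (Int.cast : ℤ → ℝ) (hval t)
        simp only [Int.cast_mul, Int.cast_pow, Int.cast_add, Int.cast_sum,
          Int.cast_natCast] at h
        exact h
      have hρt := hρ1 t
      have hWt' := abs_le.1 hWt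
      have h2 : (1 : ℝ) ≤ ((e0 t).natAbs : ℝ) := by
        have := Int.natAbs_pos.2 (he00 t)
        exact_mod_cast this
      have h3 : (ρ t : ℝ) ≤ ((e0 t).natAbs : ℝ) * (ρ t : ℝ) := by nlinarith
      have h4 : 0 < (((e0 t).sign : ℤ) : ℝ) * ((D t : ℝ) * z t) ^ (m + 2) := by linarith
      have h5 : (((e0 t).sign : ℤ) : ℝ) * ((D t : ℝ) * z t) ^ (m + 2) =
          |(D t : ℝ) * z t| ^ (m + 2) := by
        rw [← abs_of_pos h4, abs_mul, abs_pow]
        have h6 : |(((e0 t).sign : ℤ) : ℝ)| = 1 := by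
          have h7 : |(e0 t).sign| = 1 := by
            rcases lt_or_gt_of_ne (he00 t) with h | h
            · rw [Int.sign_eq_neg_one_of_neg h]; simp
            · rw [Int.sign_eq_one_of_pos h]; simp
          exact_mod_cast h7
        rw [h6, one_mul]
      have h8 : (((D t * z t).natAbs : ℕ) : ℝ) = |(D t : ℝ) * z t| := by
        rw [Nat.cast_natAbs]; push_cast; rfl
      have h9 : 1 ≤ (D t * z t).natAbs := Int.natAbs_pos.2 (mul_ne_zero (hD0 t) (hz0 t))
      refine ⟨(((D t * z t).natAbs : ℕ) : ℝ), by exact_mod_cast h9, ?_, ?_⟩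
      · rw [h8, ← h5, h1]
        push_cast
        ring
      · rw [sub_self, abs_zero]
        positivity
  -- the end of the proof
  set ε' : ℝ := ε / (32 * (|C0| + 1)) with hε'
  have hC0' : 0 ≤ |C0| := abs_nonneg _
  have hεpos : 0 < ε' := by rw [hε']; positivity
  have hε2 : |C0| * ε' ≤ ε / 32 := by
    rw [hε']
    have h1 : |C0| * (ε / (32 * (|C0| + 1))) = (ε / 32) * (|C0| / (|C0| + 1)) := by
      field_simp
    rw [h1]
    refine mul_le_of_le_one_right (by positivity) ?_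
    rw [div_le_one (by linarith)]
    linarith
  obtain ⟨t, ⟨E, w, c, hE0, hEb, hw, hc, hEy⟩, hMt, hL8, hLpos, hXlt⟩ :=
    ((hsub ε' hεpos).and_eventually ((ev_const_le hL ((H : ℝ) + 1) ε' hεpos).and
      ((hL.eventually_ge_atTop (32 * |C0| / ε)).and
      ((hL.eventually_gt_atTop 0).and hXlow)))).exists
  have hexp1 : 1 ≤ Real.exp (ε' * L t) := by
    rw [← Real.exp_zero]
    exact Real.exp_le_exp.2 (by positivity)
  have hune : ∀ i, ((u t i : ℕ) : ℚ) ≠ 0 := fun i => by exact_mod_cast (hu t i).1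
  have hvne : ∀ i, ((v t i : ℕ) : ℚ) ≠ 0 := fun i => by exact_mod_cast (hv t i).1
  have hDz : D t * z t ≠ 0 := mul_ne_zero (hD0 t) (hz0 t)
  have hfin := hC0 (Real.exp (ε' * L t)) hexp1
    (Fin.append (Fin.append (fun i => ⟨Units.mk0 _ (hune i), mem_gamS (hu t i) _ rfl⟩)
      (fun i => ⟨Units.mk0 _ (hvne i), mem_gamS (hv t i) _ rfl⟩))
      (fun j => ⟨w j, hw j⟩))
    (Fin.append (Fin.append (a t) (fun _ => 0)) (fun _ => 0))
    (Fin.append (Fin.append (fun _ => 0) (b t)) (fun _ => 0))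
    (Fin.append (Fin.append (fun _ => 0) (fun _ => 0)) c)
    (by
      intro j
      refine Fin.addCases (fun i => ?_) (fun i => ?_) j
      · rw [Fin.append_left]
        refine Fin.addCases (fun i' => ?_) (fun i' => ?_) i
        · rw [Fin.append_left]
          exact (haM t i').trans hMt
        · rw [Fin.append_right]
          simp only [Int.cast_zero, abs_zero]
          positivity
      · rw [Fin.append_right]
        simp only [Int.cast_zero, abs_zero]
        positivity)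
    (by
      intro j
      refine Fin.addCases (fun i => ?_) (fun i => ?_) j
      · rw [Fin.append_left]
        refine Fin.addCases (fun i' => ?_) (fun i' => ?_) i
        · rw [Fin.append_left]
          simp only [Int.cast_zero, abs_zero]
          positivity
        · rw [Fin.append_right]
          exact (hbM t i').trans hMt
      · rw [Fin.append_right]
        simp only [Int.cast_zero, abs_zero]
        positivity)
    (by
      intro j
      refine Fin.addCases (fun i => ?_) (fun i => ?_) j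
      · rw [Fin.append_left]
        refine Fin.addCases (fun i' => ?_) (fun i' => ?_) i
        · rw [Fin.append_left]
          simp only [Int.cast_zero, abs_zero]
          positivity
        · rw [Fin.append_right]
          simp only [Int.cast_zero, abs_zero]
          positivity
      · rw [Fin.append_right]
        exact hc i)
    (E * (D t * z t).sign) (mul_ne_zero hE0 (Int.sign_eq_zero_iff_zero.not.2 hDz))
    (by
      push_cast
      rw [abs_mul]
      calc |(E : ℝ)| * |(((D t * z t).sign : ℤ) : ℝ)| ≤ Real.exp (ε' * L t) * 1 :=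
            mul_le_mul hEb (hsignle _) (abs_nonneg _) (Real.exp_pos _).le
        _ = Real.exp (ε' * L t) := mul_one _)
    (x t) (D t) (z t)
    (by
      rw [Fin.sum_univ_add, Fin.sum_univ_add]
      simp only [Fin.append_left, Fin.append_right, Int.cast_zero, mul_zero,
        Finset.sum_const_zero, add_zero, Units.val_mk0]
      rw [hx t]
      push_cast
      exact Finset.sum_congr rfl fun i _ => by ring)
    (by
      rw [Fin.sum_univ_add, Fin.sum_univ_add]
      simp only [Fin.append_left, Fin.append_right, Int.cast_zero, mul_zero,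
        Finset.sum_const_zero, add_zero, zero_add, Units.val_mk0]
      rw [hD t]
      push_cast
      exact Finset.sum_congr rfl fun i _ => by ring)
    (by
      rw [Fin.sum_univ_add, Fin.sum_univ_add]
      simp only [Fin.append_left, Fin.append_right, Int.cast_zero, mul_zero,
        Finset.sum_const_zero, zero_add]
      rw [← hEy]
      have h1 : E * (D t * z t).sign * (D t * z t) = E * ((D t * z t).natAbs : ℤ) := by
        rw [mul_assoc, Int.sign_mul_self_eq_natAbs]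
      rw [h1]
      simp only [Int.cast_mul, Int.cast_natCast])
    (hF t) (hD0 t) (hz0 t)
  rw [Real.log_exp] at hfin
  have h1 : 1 / 2 * L t ≤ Real.log (max |(x t : ℝ)| 1) := by
    have h3 := Real.log_le_log (Real.exp_pos _) (hXlt.trans (le_max_left (X t) 1))
    rwa [Real.log_exp] at h3
  have h2 : (t : ℝ) + (1 + ε) * Real.log (max |(x t : ℝ)| 1) <
      ((m : ℝ) + 1) * Real.log |(z t : ℝ)| := hlt t
  have h3 : C0 * (1 + ε' * L t) ≤ |C0| * (1 + ε' * L t) :=
    mul_le_mul_of_nonneg_right (le_abs_self _) (by positivity)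
  have h4 : |C0| * ε' * L t ≤ ε / 32 * L t := mul_le_mul_of_nonneg_right hε2 hLpos.le
  have h5 : |C0| ≤ ε / 32 * L t := by
    rw [div_le_iff₀ hε] at hL8
    linarith
  have h6 : (0 : ℝ) ≤ t := Nat.cast_nonneg t
  have h7 : ε / 2 * (1 / 2 * L t) ≤ ε / 2 * Real.log (max |(x t : ℝ)| 1) :=
    mul_le_mul_of_nonneg_left h1 (by positivity)
  have h8 : 0 < ε * L t := mul_pos hε hLpos
  nlinarith

end Pool.Agent.TH419.VQ
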