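import Mathlib
import Pool.Agent.TH419.VQ.Germ2

/-!
# The abc inequality for `e w ^ (p + 1) + B = D t ^ (m + 1)`: the germ theorem
-/

set_option autoImplicit false
set_option linter.unusedSectionVars false
set_option linter.unusedVariables false

namespace Pool.Agent.TH419.VQ

open Filter Topology Pool.Agent.TH932.Germs Pool.Agent.TH551.SU Pool.Agent.TH551.ZP
open Pool.Agent.TH551.SU.CRV Pool.Agent.TH551.HA

variable {s : ℕ} {b : Fin s → ℕ} {L : ℕ → ℝ} {r : ℕ} {hL : Tendsto L atTop atTop}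
  {U : Fin (r + 1) → GG} {l : Fin (r + 1) → ℕ} {d : ℕ}

lemma th_pow_mul (p : Polynomial GG) (k : ℕ) :
    p * th (p ^ k) = (k : Polynomial GG) * p ^ k * th p := by
  cases k with
  | zero => simp [th]
  | succ k =>
    rw [th_pow]
    ring

/-- **the abc inequality for `e w ^ (p + 1) + B = D t ^ (m + 1)`, for germs**; `B` and `t` are
arbitrary -/
theorem germ3 (hnc : NcStmt) (hcs : CSStmt) (hb : ∀ v, (b v).Prime)
    (hbi : Function.Injective b) (hs : Setup b hL U l d) (hU0 : U 0 = 1) (m p : ℕ)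
    (hd : m + p + 5 ≤ d) (X Y Δ : Polynomial GG) (hX : Lift hL U l 1 X) (hY : Lift hL U l 1 Y)
    (hΔ : Lift hL U l 1 Δ) (e : GG) (he : e ∈ KK L hL) (t B : GG) (htQ : QI b L t)
    (ht0 : t ≠ 0) (hB0 : B ≠ 0) (hti : Ing b L t) (hxi : Ing b L (X.eval 1))
    (hDi : Ing b L (Δ.eval 1)) (hD0 : Δ.eval 1 ≠ 0) (hy : Y.eval 1 = Δ.eval 1 * t)
    (heq : Δ.eval 1 * t ^ (m + 1) = e * X.eval 1 ^ (p + 1) + B) :
    Dom b L none (t ^ m) (X.eval 1 * B) ∨ Dom b L none (X.eval 1 ^ (p + 1)) B := by
  classical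
  set E : Polynomial GG := Polynomial.X ^ (l 0) with hE
  have hEL : Lift hL U l 1 E := by
    have h := Lift.gen (hL := hL) (U := U) (l := l) 0
    rw [hU0, Polynomial.C_1, one_mul] at h
    exact h
  have hE1 : E.eval 1 = 1 := by rw [hE]; simp
  have hE0 : E ≠ 0 := by rw [hE]; exact pow_ne_zero _ Polynomial.X_ne_zero
  set ε1 : GG := (th E).eval 1 with hε1
  have hεK : ε1 ∈ KK L hL := by
    have h1 : ε1 = (l 0 : GG) := by
      have h2 := th_monomial (1 : GG) (l 0)
      rw [Polynomial.C_1, one_mul] at h2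
      rw [hε1, hE, h2]
      simp
    rw [h1]
    exact natCast_mem _ _
  set x := X.eval 1 with hx
  set D := Δ.eval 1 with hD
  set y := Y.eval 1 with hyy
  set x1 : GG := (th X).eval 1 - x * ε1 with hx1
  set D1 : GG := (th Δ).eval 1 - D * ε1 with hD1
  set y1 : GG := (th Y).eval 1 - y * ε1 with hy1
  -- the form
  set P0 : Polynomial GG := Y ^ (m + 1) * E ^ p - Polynomial.C e * (Δ ^ m * X ^ (p + 1)) with hP0
  have hA1 : Lift hL U l (m + p + 1) (Y ^ (m + 1) * E ^ p) := by
    have h1 := (hY.pow (m + 1)).mul (hEL.pow p)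
    have e1 : 1 * (m + 1) + 1 * p = m + p + 1 := by ring
    rwa [e1] at h1
  have hB1 : Lift hL U l (m + p + 1) (Δ ^ m * X ^ (p + 1)) := by
    have h1 := (hΔ.pow m).mul (hX.pow (p + 1))
    have e1 : 1 * m + 1 * (p + 1) = m + p + 1 := by ring
    rwa [e1] at h1
  have hP0L : Lift hL U l (m + p + 1) P0 := hA1.sub (hB1.smul he)
  have hP01 : P0.eval 1 = D ^ m * B := by
    rw [hP0]
    simp only [Polynomial.eval_sub, Polynomial.eval_mul, Polynomial.eval_pow, Polynomial.eval_C,
      hE1, one_pow, mul_one]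
    rw [← hx, ← hD, ← hyy, hy]
    have h1 : B = D * t ^ (m + 1) - e * x ^ (p + 1) := by rw [heq]; ring
    rw [h1]
    ring
  set N1 : GG := (th P0).eval 1 - (((m : GG) + p + 1) * ε1) * P0.eval 1 with hN1
  have hmpK : (((m : GG) + p + 1) * ε1) ∈ KK L hL :=
    mul_mem (by
      have : ((m : GG) + p + 1) = ((m + p + 1 : ℕ) : GG) := by push_cast; ring
      rw [this]
      exact natCast_mem _ _) hεK
  have hN1d : Dom b L none N1 (D ^ m * B) := by
    rw [← hP01, hN1]
    refine Dom.sub hb hL (hP0L.th_dom hnc hb hbi hs (by omega) none) ?_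
    exact Dom.smul hb hbi hL hmpK (Dom.refl hb hL _ _)
  -- the identity for the derivative
  have hDm : D * (th (Δ ^ m)).eval 1 = (m : GG) * D ^ m * (th Δ).eval 1 := by
    have h := congrArg (Polynomial.eval 1) (th_pow_mul Δ m)
    simpa only [Polynomial.eval_mul, Polynomial.eval_pow, Polynomial.eval_natCast] using h
  have hDN : D * N1 = ((m : GG) + 1) * D * y ^ m * y1 -
      e * ((m : GG) * D ^ m * D1 * x ^ (p + 1) + ((p : GG) + 1) * D ^ (m + 1) * x ^ p * x1) := by
    have h1 : (th P0).eval 1 = ((m : GG) + 1) * y ^ m * (th Y).eval 1 +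
        y ^ (m + 1) * ((p : GG) * ε1) - e * ((th (Δ ^ m)).eval 1 * x ^ (p + 1) +
          D ^ m * (((p : GG) + 1) * x ^ p * (th X).eval 1)) := by
      rw [hP0, th_sub, th_mul, th_C_mul, th_mul]
      simp only [Polynomial.eval_sub, Polynomial.eval_mul, Polynomial.eval_add,
        Polynomial.eval_pow, Polynomial.eval_C, th_pow_eval Y, th_pow_eval E, th_pow_eval X, hE1,
        one_pow, mul_one, ← hε1, ← hx, ← hD, ← hyy]
      push_cast
      have h3 : m + 1 - 1 = m := by omega
      have h4 : p + 1 - 1 = p := by omega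
      simp only [h3, h4]
    rw [hN1, h1, hP01]
    have h5 : D ^ m * B = y ^ (m + 1) - e * D ^ m * x ^ (p + 1) := by
      rw [hy]
      have h1 : B = D * t ^ (m + 1) - e * x ^ (p + 1) := by rw [heq]; ring
      rw [h1]
      ring
    rw [h5, hx1, hD1, hy1]
    linear_combination (-e * x ^ (p + 1)) * hDm
  set ω : GG := ((m : GG) + 1) * (y1 * x) + (-(m : GG)) * (t * (D1 * x)) +
    (-((p : GG) + 1)) * (t * (D * x1)) with hω
  have hkey : D ^ (m + 1) * (t ^ m * ω) = x * (D * N1) -
      B * D ^ m * ((m : GG) * (D1 * x) + ((p : GG) + 1) * (D * x1)) := by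
    rw [hDN]
    have h1 : B = D * t ^ (m + 1) - e * x ^ (p + 1) := by rw [heq]; ring
    rw [h1, hω, hy]
    ring
  have dd : ∀ (v : Option (Fin s)) (g : Polynomial GG), Lift hL U l 1 g →
      Dom b L v ((th g).eval 1 - g.eval 1 * ε1) (g.eval 1) := fun v g hg =>
    der_dom hnc hb hbi hs (by omega) hg hεK v
  have hmK : (m : GG) ∈ KK L hL := natCast_mem _ _
  have hm1K : ((m : GG) + 1) ∈ KK L hL := add_mem hmK (one_mem _)
  have hp1K : ((p : GG) + 1) ∈ KK L hL := add_mem (natCast_mem _ _) (one_mem _)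
  -- the size of the right side
  have hsize : Dom b L none (t ^ m * ω) (x * B) := by
    have h1 : Dom b L none (D ^ (m + 1) * (t ^ m * ω)) (D ^ (m + 1) * (x * B)) := by
      rw [hkey]
      refine Dom.sub hb hL ?_ ?_
      · have h2 := Dom.mul hb (Dom.refl hb hL none (x * D)) hN1d
        have e1 : x * (D * N1) = x * D * N1 := by ring
        have e2 : D ^ (m + 1) * (x * B) = x * D * (D ^ m * B) := by ring
        rw [e1, e2]
        exact h2
      · have h2 : Dom b L none ((m : GG) * (D1 * x) + ((p : GG) + 1) * (D * x1)) (D * x) := by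
          refine Dom.add hb hL ?_ ?_
          · exact Dom.smul hb hbi hL hmK (Dom.mul hb (dd none Δ hΔ) (Dom.refl hb hL _ _))
          · exact Dom.smul hb hbi hL hp1K (Dom.mul hb (Dom.refl hb hL _ _) (dd none X hX))
        have h3 := Dom.mul hb (Dom.refl hb hL none (B * D ^ m)) h2
        have e2 : D ^ (m + 1) * (x * B) = B * D ^ m * (D * x) := by ring
        rw [e2]
        exact h3
    have hDne : D ^ (m + 1) ≠ 0 := pow_ne_zero _ hD0
    have h2 := Dom.mul hb (Dom.refl hb hL none (D ^ (m + 1))⁻¹) h1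
    rwa [inv_mul_cancel_left₀ hDne, inv_mul_cancel_left₀ hDne] at h2
  by_cases hω0 : ω = 0
  · -- the Wronskian vanishes
    right
    by_cases hX0 : X = 0
    · have h2 : x ^ (p + 1) = 0 := by
        rw [hx, hX0]
        simp
      rw [h2]
      exact Dom.zero hb hL _ _
    have hΔ0 : Δ ≠ 0 := by
      intro h0
      apply hD0
      rw [hD, h0]
      simp
    set Ω : Polynomial GG := E * (Polynomial.C ((m : GG) + 1) * (Δ * X * th Y) -
      Polynomial.C (m : GG) * (Y * X * th Δ) - Polynomial.C ((p : GG) + 1) * (Y * Δ * th X)) +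
      Polynomial.C (p : GG) * (th E * Y * Δ * X) with hΩ
    have hΩL : Lift hL U l 4 Ω := by
      have h1 : Lift hL U l 3 (Δ * X * th Y) := (hΔ.mul hX).mul hY.th
      have h2 : Lift hL U l 3 (Y * X * th Δ) := (hY.mul hX).mul hΔ.th
      have h3 : Lift hL U l 3 (Y * Δ * th X) := (hY.mul hΔ).mul hX.th
      have h4 : Lift hL U l 4 (th E * Y * Δ * X) := ((hEL.th.mul hY).mul hΔ).mul hX
      have h5 := hEL.mul (((h1.smul hm1K).sub (h2.smul hmK)).sub (h3.smul hp1K))
      exact h5.add (h4.smul (natCast_mem _ p))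
    have hΩ1 : Ω.eval 1 = D * ω := by
      rw [hΩ]
      simp only [Polynomial.eval_sub, Polynomial.eval_mul, Polynomial.eval_add,
        Polynomial.eval_C, hE1, one_mul, ← hε1, ← hx, ← hD, ← hyy]
      rw [hω, hx1, hD1, hy1, hy]
      ring
    have hΩ0 : Ω = 0 := hΩL.eq_zero hcs hb hbi hs (by omega) (by rw [hΩ1, hω0, mul_zero])
    set A1 : Polynomial GG := Y ^ (m + 1) * E ^ p with hA1d
    set B1 : Polynomial GG := Δ ^ m * X ^ (p + 1) with hB1d
    have hB10 : B1 ≠ 0 := mul_ne_zero (pow_ne_zero _ hΔ0) (pow_ne_zero _ hX0)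
    have hEp := th_pow_mul E p
    have hΔm := th_pow_mul Δ m
    have hW0 : (Δ * E) * (th A1 * B1 - A1 * th B1) = Y ^ m * Δ ^ m * X ^ p * E ^ p * Ω := by
      rw [hA1d, hB1d, th_mul, th_mul, th_pow Y m, th_pow X p, hΩ]
      simp only [Polynomial.C_add, Polynomial.C_1, map_natCast]
      push_cast
      linear_combination (Δ * Y ^ (m + 1) * (Δ ^ m * X ^ (p + 1))) * hEp -
        (E * (Y ^ (m + 1) * E ^ p) * X ^ (p + 1)) * hΔm
    rw [hΩ0, mul_zero] at hW0
    have hW1 : th A1 * B1 - A1 * th B1 = 0 :=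
      (mul_eq_zero.1 hW0).resolve_left (mul_ne_zero hΔ0 hE0)
    have hW : Polynomial.derivative A1 * B1 = A1 * Polynomial.derivative B1 := by
      unfold th at hW1
      have h2 : Polynomial.X * (Polynomial.derivative A1 * B1 -
          A1 * Polynomial.derivative B1) = 0 := by
        linear_combination hW1
      exact sub_eq_zero.1 ((mul_eq_zero.1 h2).resolve_left Polynomial.X_ne_zero)
    obtain ⟨κ, hκ⟩ := prop_of_wr A1 B1 hB10 hW
    have hlc : B1.coeff B1.natDegree ≠ 0 := Polynomial.leadingCoeff_ne_zero.2 hB10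
    have hκK : κ ∈ KK L hL := by
      have h2 := Lift.coeff_div hb hs (by omega) hA1 hB1 B1.natDegree hlc
      rw [hκ, Polynomial.coeff_C_mul, mul_div_assoc, div_self hlc, mul_one] at h2
      exact h2
    have h3 : D ^ m * B = D ^ m * ((κ - e) * x ^ (p + 1)) := by
      rw [← hP01, hP0, hκ, hB1d]
      simp only [Polynomial.eval_sub, Polynomial.eval_mul, Polynomial.eval_pow,
        Polynomial.eval_C, ← hx, ← hD]
      ring
    have h4 : B = (κ - e) * x ^ (p + 1) := mul_left_cancel₀ (pow_ne_zero _ hD0) h3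
    have hκe : κ - e ≠ 0 := by
      intro h5
      rw [h5, zero_mul] at h4
      exact hB0 h4
    rw [h4]
    have h5 := Dom.mul hb (Dom.one_of_KK hb hbi hL none (sub_mem hκK he) hκe)
      (Dom.refl hb hL none (x ^ (p + 1)))
    rwa [one_mul] at h5
  · left
    have qd : ∀ g : Polynomial GG, Lift hL U l 1 g →
        QI b L ((th g).eval 1 - g.eval 1 * ε1) := by
      intro g hg
      have h1 : Lift hL U l 2 (th g * E - g * th E) := (hg.th.mul hEL).sub (hg.mul hEL.th)
      have h2 := h1.qi hb hs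
      simpa only [Polynomial.eval_sub, Polynomial.eval_mul, hE1, mul_one] using h2
    have hωQ : QI b L ω := by
      have hxq : QI b L x := hX.qi hb hs
      have hDq : QI b L D := hΔ.qi hb hs
      refine QI.add hb (QI.add hb ?_ ?_) ?_
      · exact QI.mul hb (QI.of_KK hb hL hm1K) (QI.mul hb (qd Y hY) hxq)
      · exact QI.mul hb (QI.of_KK hb hL (neg_mem hmK)) (QI.mul hb htQ (QI.mul hb (qd Δ hΔ) hxq))
      · exact QI.mul hb (QI.of_KK hb hL (neg_mem hp1K)) (QI.mul hb htQ (QI.mul hb hDq (qd X hX)))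
    have hωv : ∀ v : Fin s, Dom b L (some v) ω 1 := by
      intro v
      have one : ∀ f g : GG, Dom b L (some v) f 1 → Dom b L (some v) g 1 →
          Dom b L (some v) (f * g) 1 := by
        intro f g hf hg
        have h := Dom.mul hb hf hg
        rwa [one_mul] at h
      have hx' : Dom b L (some v) x1 1 := Dom.trans hb (dd (some v) X hX) (hxi v)
      have hD' : Dom b L (some v) D1 1 := Dom.trans hb (dd (some v) Δ hΔ) (hDi v)
      have hyi : Dom b L (some v) y 1 := by
        rw [hy]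
        exact one _ _ (hDi v) (hti v)
      have hy' : Dom b L (some v) y1 1 := Dom.trans hb (dd (some v) Y hY) hyi
      refine Dom.add hb hL (Dom.add hb hL ?_ ?_) ?_
      · exact Dom.smul hb hbi hL hm1K (one _ _ hy' (hxi v))
      · exact Dom.smul hb hbi hL (neg_mem hmK) (one _ _ (hti v) (one _ _ hD' (hxi v)))
      · exact Dom.smul hb hbi hL (neg_mem hp1K) (one _ _ (hti v) (one _ _ (hDi v) hx'))
    have h1 := dom_one hb hbi hωQ hω0 hωv hL
    have h2 := Dom.mul hb (Dom.refl hb hL none (t ^ m)) h1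
    rw [mul_one] at h2
    exact Dom.trans hb h2 hsize

end Pool.Agent.TH419.VQ
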