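import Mathlib
import Pool.Agent.TH419.VQ.Germ3
import Pool.Agent.TH551.HA.Fin
import Pool.Agent.TH551.SU.Uni

/-!
# The abc inequality for `e w ^ (p + 1) + B = D z ^ (m + 1)` and sums of S-units
-/

set_option autoImplicit false
set_option linter.unusedSectionVars false
set_option linter.unusedVariables false

namespace Pool.Agent.TH419.VQ

open Filter Topology Pool.Agent.TH932.Germs Pool.Agent.TH551.SU Pool.Agent.TH551.ZP
open Pool.Agent.TH551.SU.CRV Pool.Agent.TH551.SU.Ht Pool.Agent.TH551.HA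

/-- **The abc inequality for `e w ^ (p + 1) + B = D z ^ (m + 1)`**, where `w`, `D` and a small
multiple of `D z` are sums of S-units; `B` and `z` are arbitrary. -/
theorem fin3 (m p k : ℕ) (Γ : Subgroup ℚˣ) (hΓ : Γ.FG) (ε : ℝ) (hε : 0 < ε) :
    ∃ C : ℝ, ∀ M : ℝ, 1 ≤ M → ∀ (u : Fin k → Γ) (a b c : Fin k → ℤ), (∀ j, |(a j : ℝ)| ≤ M) →
      (∀ j, |(b j : ℝ)| ≤ M) → (∀ j, |(c j : ℝ)| ≤ M) → ∀ E e : ℤ, E ≠ 0 → |(E : ℝ)| ≤ M →
      |(e : ℝ)| ≤ M → ∀ w D z B : ℤ, (w : ℚ) = ∑ j, ((u j : ℚˣ) : ℚ) * a j →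
      (D : ℚ) = ∑ j, ((u j : ℚˣ) : ℚ) * b j →
      ((E * (D * z) : ℤ) : ℚ) = ∑ j, ((u j : ℚˣ) : ℚ) * c j →
      D * z ^ (m + 1) = e * w ^ (p + 1) + B → w ≠ 0 → D ≠ 0 → z ≠ 0 → B ≠ 0 →
      (m : ℝ) * Real.log |(z : ℝ)| ≤
        C * (1 + Real.log M) + ε * Real.log |((D * z ^ (m + 1) : ℤ) : ℝ)| +
          (Real.log |(w : ℝ)| + Real.log |(B : ℝ)|) := by
  classical
  obtain ⟨s, bb, hb, hbi, hΓb⟩ := exists_base Γ hΓ
  by_contra hcon
  push Not at hcon
  choose M hM u a b c ha hbM hc E e hE0 hEM heM w D z B hw hD hy hF hw0 hD0 hz0 hB0 hlt using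
    fun t : ℕ => hcon (t : ℝ)
  set L : ℕ → ℝ := fun t => Real.log |((D t * z t ^ (m + 1) : ℤ) : ℝ)| with hLdef
  have hlM : ∀ t, 0 ≤ Real.log (M t) := fun t => Real.log_nonneg (hM t)
  have hone : ∀ g : ℤ, g ≠ 0 → (1 : ℝ) ≤ |(g : ℝ)| := fun g hg => by
    exact_mod_cast Int.one_le_abs hg
  have hz1 : ∀ t, (1 : ℝ) ≤ |(z t : ℝ)| := fun t => hone _ (hz0 t)
  have hD1 : ∀ t, (1 : ℝ) ≤ |(D t : ℝ)| := fun t => hone _ (hD0 t)
  have hw1 : ∀ t, (1 : ℝ) ≤ |(w t : ℝ)| := fun t => hone _ (hw0 t)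
  have hB1 : ∀ t, (1 : ℝ) ≤ |(B t : ℝ)| := fun t => hone _ (hB0 t)
  have hc1 : ∀ t, (1 : ℝ) ≤ |((D t * z t ^ (m + 1) : ℤ) : ℝ)| := fun t =>
    hone _ (mul_ne_zero (hD0 t) (pow_ne_zero _ (hz0 t)))
  have hL0 : ∀ t, 0 ≤ L t := fun t => Real.log_nonneg (hc1 t)
  have hexpL : ∀ t, Real.exp (L t) = |((D t * z t ^ (m + 1) : ℤ) : ℝ)| := fun t =>
    Real.exp_log (by linarith [hc1 t])
  have hsplit : ∀ t, L t = Real.log |(D t : ℝ)| + Real.log |(z t : ℝ)| +
      (m : ℝ) * Real.log |(z t : ℝ)| := by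
    intro t
    have h1 := hD1 t
    have h2 := hz1 t
    simp only [hLdef]
    push_cast
    rw [abs_mul, abs_pow, Real.log_mul (by positivity) (by positivity), Real.log_pow]
    push_cast
    ring
  have hlz : ∀ t, 0 ≤ Real.log |(z t : ℝ)| := fun t => Real.log_nonneg (hz1 t)
  have hlD : ∀ t, 0 ≤ Real.log |(D t : ℝ)| := fun t => Real.log_nonneg (hD1 t)
  have hlw : ∀ t, 0 ≤ Real.log |(w t : ℝ)| := fun t => Real.log_nonneg (hw1 t)
  have hlB : ∀ t, 0 ≤ Real.log |(B t : ℝ)| := fun t => Real.log_nonneg (hB1 t)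
  have hLt : ∀ t : ℕ, (t : ℝ) * (1 + Real.log (M t)) + ε * L t + Real.log |(w t : ℝ)| +
      Real.log |(B t : ℝ)| < L t := by
    intro t
    have h1 : (t : ℝ) * (1 + Real.log (M t)) + ε * L t +
        (Real.log |(w t : ℝ)| + Real.log |(B t : ℝ)|) < (m : ℝ) * Real.log |(z t : ℝ)| := hlt t
    have h2 := hsplit t
    have h3 := hlz t
    have h4 := hlD t
    linarith
  have htM0 : ∀ t : ℕ, 0 ≤ (t : ℝ) * (1 + Real.log (M t)) := fun t =>
    mul_nonneg (Nat.cast_nonneg t) (by linarith [hlM t])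
  have hεL0 : ∀ t, 0 ≤ ε * L t := fun t => mul_nonneg hε.le (hL0 t)
  have hL : Tendsto L atTop atTop := by
    refine tendsto_atTop_mono (fun t => ?_) tendsto_natCast_atTop_atTop
    have h1 := hLt t
    have h3 : 0 ≤ (t : ℝ) * Real.log (M t) := mul_nonneg (Nat.cast_nonneg t) (hlM t)
    have h4 := hεL0 t
    have h5 := hlw t
    have h6 := hlB t
    linarith
  -- the digits are negligible
  have hnegE : ∀ ε' : ℝ, 0 < ε' → ∀ᶠ t : ℕ in atTop, M t ≤ Real.exp (ε' * L t) := by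
    intro ε' hε'
    have h1 : ∀ᶠ t : ℕ in atTop, 1 / ε' ≤ (t : ℝ) :=
      tendsto_natCast_atTop_atTop.eventually_ge_atTop _
    filter_upwards [h1] with t ht
    rw [← Real.exp_log (show 0 < M t by linarith [hM t])]
    refine Real.exp_le_exp.2 ?_
    have h2 := hLt t
    have h4 := hεL0 t
    have h5 := hlw t
    have h6 := hlB t
    have h7 : (0 : ℝ) ≤ t := Nat.cast_nonneg t
    have h3 : 1 / ε' * Real.log (M t) ≤ (t : ℝ) * (1 + Real.log (M t)) := by
      nlinarith [mul_le_mul_of_nonneg_right ht (hlM t)]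
    have h8 : 1 / ε' * Real.log (M t) ≤ L t := by linarith
    rw [one_div, inv_mul_le_iff₀ hε'] at h8
    exact h8
  have hneg : ∀ g : ℕ → ℤ, (∀ t, |(g t : ℝ)| ≤ M t) → gm (fun t => (g t : ℚ)) ∈ KK L hL := by
    intro g hg
    refine ⟨g, fun _ => 1, ?_, Negl.one hL, by simp, by
      congr 1
      funext t
      simp⟩
    intro ε' hε'
    refine ev_of_atTop ((hnegE ε' hε').mono fun t ht => ?_)
    exact (hg t).trans ht
  -- integers bounded by a power of exp L
  have hintle : ∀ g : ℕ → ℤ, (∀ᶠ t in (UU : Filter ℕ), |(g t : ℝ)| ≤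
      Real.exp (2 * L t)) → ∀ᶠ t in (UU : Filter ℕ), ∀ v,
      av bb v (g t : ℚ) ≤ Real.exp (2 * L t) := by
    intro g hg
    filter_upwards [hg] with t ht v
    cases v with
    | none =>
      simp only [av]
      push_cast
      exact ht
    | some v =>
      have := Fact.mk (hb v)
      have h1 : av bb (some v) (g t : ℚ) ≤ 1 := by
        simp only [av]
        exact_mod_cast padicNorm.of_int (p := bb v) (g t)
      refine h1.trans (Real.one_le_exp ?_)
      exact mul_nonneg (by norm_num) (hL0 t)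
  -- the germs
  set V : Fin k → GG := fun j => gm (fun t => ((u t j : ℚˣ) : ℚ)) with hV
  have hVS : ∀ j, GSU bb (V j) := fun j => ⟨_, rfl, fun t => hΓb _ (u t j).2⟩
  have hgerm : ∀ (g : ℕ → ℤ) (h : ℕ → Fin k → ℤ),
      (∀ t, (g t : ℚ) = ∑ j, ((u t j : ℚˣ) : ℚ) * h t j) →
      ∑ j, gm (fun t => (h t j : ℚ)) * V j = gm (fun t => (g t : ℚ)) := by
    intro g h hg
    have h1 : ∀ j, gm (fun t => (h t j : ℚ)) * V j =
        gm (fun t => ((u t j : ℚˣ) : ℚ) * h t j) := by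
      intro j
      rw [hV]
      simp only
      rw [gm_mul]
      congr 1
      funext t
      ring
    simp only [h1]
    rw [gm_sum']
    congr 1
    funext t
    rw [hg t]
  have hrepz : ∀ g : ℕ → ℤ, ∀ᶠ t in (UU : Filter ℕ), rep (gm (fun t => (g t : ℚ))) t = g t :=
    fun g => rep_gm _
  have hHB : ∀ (g : ℕ → ℤ) (h : ℕ → Fin k → ℤ),
      (∀ t, (g t : ℚ) = ∑ j, ((u t j : ℚˣ) : ℚ) * h t j) → (∀ t j, |(h t j : ℝ)| ≤ M t) →
      (∀ᶠ t in (UU : Filter ℕ), |(g t : ℝ)| ≤ Real.exp (2 * L t)) →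
      ∃ (m' : ℕ) (u' : Fin m' → GG) (c' : Fin m' → KK L hL), (∀ i, GSU bb (u' i)) ∧
        (∀ i, Mod bb L (u' i)) ∧ ∑ j, (c' j : GG) * u' j = gm (fun t => (g t : ℚ)) := by
    intro g h hg hh hgl
    have h1 := hbF s bb hb hbi L hL k V hVS
      (fun j => ⟨gm (fun t => (h t j : ℚ)), hneg _ fun t => hh t j⟩) 2 (by
        have h2 : ∑ j, ((⟨gm (fun t => (h t j : ℚ)), hneg _ fun t => hh t j⟩ : KK L hL) : GG) *
            V j = gm (fun t => (g t : ℚ)) := hgerm g h hg
        rw [h2]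
        filter_upwards [hrepz g, hintle g hgl] with t ht ht2 v
        rw [ht]
        exact ht2 v)
    obtain ⟨m', u', c', h3, h4, h5⟩ := h1
    exact ⟨m', u', c', h3, h4, h5.trans (hgerm g h hg)⟩
  have hle2 : ∀ t, Real.exp (L t) ≤ Real.exp (2 * L t) := fun t =>
    Real.exp_le_exp.2 (by linarith [hL0 t])
  have hDzc : ∀ t, |(D t : ℝ)| * |(z t : ℝ)| ≤ Real.exp (L t) := by
    intro t
    rw [hexpL]
    push_cast
    rw [abs_mul, abs_pow]
    refine mul_le_mul_of_nonneg_left ?_ (abs_nonneg _)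
    exact le_self_pow₀ (hz1 t) (by omega)
  have hwle : ∀ᶠ t in (UU : Filter ℕ), |(w t : ℝ)| ≤ Real.exp (2 * L t) := by
    refine Eventually.of_forall fun t => le_trans ?_ (hle2 t)
    rw [← Real.exp_log (show 0 < |(w t : ℝ)| by linarith [hw1 t])]
    refine Real.exp_le_exp.2 ?_
    have h1 := hLt t
    have h4 := hεL0 t
    have h6 := hlB t
    have h7 := htM0 t
    linarith
  have hDle : ∀ᶠ t in (UU : Filter ℕ), |(D t : ℝ)| ≤ Real.exp (2 * L t) := by
    refine Eventually.of_forall fun t => le_trans (le_trans ?_ (hDzc t)) (hle2 t)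
    exact le_mul_of_one_le_right (abs_nonneg _) (hz1 t)
  have hyle : ∀ᶠ t in (UU : Filter ℕ), |((E t * (D t * z t) : ℤ) : ℝ)| ≤
      Real.exp (2 * L t) := by
    filter_upwards [ev_of_atTop (hnegE 1 one_pos)] with t hMt
    push_cast
    rw [abs_mul, abs_mul]
    calc |(E t : ℝ)| * (|(D t : ℝ)| * |(z t : ℝ)|) ≤
        Real.exp (1 * L t) * Real.exp (L t) :=
          mul_le_mul ((hEM t).trans hMt) (hDzc t) (by positivity) (Real.exp_pos _).le
      _ = Real.exp (2 * L t) := by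
          rw [← Real.exp_add]
          ring_nf
  obtain ⟨m1, u1, c1, hu1, hu1', hs1⟩ := hHB w a hw ha hwle
  obtain ⟨m2, u2, c2, hu2, hu2', hs2⟩ := hHB D b hD hbM hDle
  obtain ⟨m3, u3, c3, hu3, hu3', hs3⟩ := hHB (fun t => E t * (D t * z t)) c hy hc hyle
  -- the combined family
  set W : Fin (m1 + m2 + m3 + 1) → GG := Fin.cons 1 (Fin.append (Fin.append u1 u2) u3) with hW
  have hWall : ∀ (P : GG → Prop), P 1 → (∀ j, P (u1 j)) → (∀ j, P (u2 j)) →
      (∀ j, P (u3 j)) → ∀ j, P (W j) := by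
    intro P h0 h1 h2 h3 j
    rw [hW]
    refine Fin.cases ?_ (fun j => ?_) j
    · simpa using h0
    · rw [Fin.cons_succ]
      refine Fin.addCases (fun i => ?_) (fun i => ?_) j
      · rw [Fin.append_left]
        refine Fin.addCases (fun i' => ?_) (fun i' => ?_) i
        · rw [Fin.append_left]
          exact h1 i'
        · rw [Fin.append_right]
          exact h2 i'
      · rw [Fin.append_right]
        exact h3 i
  have hWg : ∀ j, GSU bb (W j) := hWall _ GSU.one hu1 hu2 hu3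
  have hWm : ∀ j, Mod bb L (W j) := hWall _ (Mod.one hb hL) hu1' hu2' hu3'
  obtain ⟨l, hl⟩ := fwF L hL (m1 + m2 + m3) W (fun j => GSU.ne_zero hb (hWg j)) (m + p + 5)
  have hs : Setup bb hL W l (m + p + 5) := ⟨hWg, hWm, hl⟩
  obtain ⟨X, hX, hX1⟩ := exists_lift (hL := hL) W l
    (fun j : Fin m1 => (Fin.castAdd m3 (Fin.castAdd m2 j)).succ) c1
  obtain ⟨Δ, hΔ, hΔ1⟩ := exists_lift (hL := hL) W l
    (fun j : Fin m2 => (Fin.castAdd m3 (Fin.natAdd m1 j)).succ) c2
  obtain ⟨Y0, hY0, hY01⟩ := exists_lift (hL := hL) W l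
    (fun j : Fin m3 => (Fin.natAdd (m1 + m2) j).succ) c3
  have hX2 : X.eval 1 = gm (fun t => (w t : ℚ)) := by
    rw [hX1, ← hs1]
    refine Finset.sum_congr rfl fun j _ => ?_
    rw [hW, Fin.cons_succ, Fin.append_left, Fin.append_left]
  have hΔ2 : Δ.eval 1 = gm (fun t => (D t : ℚ)) := by
    rw [hΔ1, ← hs2]
    refine Finset.sum_congr rfl fun j _ => ?_
    rw [hW, Fin.cons_succ, Fin.append_left, Fin.append_right]
  have hY2 : Y0.eval 1 = gm (fun t => ((E t * (D t * z t) : ℤ) : ℚ)) := by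
    rw [hY01, ← hs3]
    refine Finset.sum_congr rfl fun j _ => ?_
    rw [hW, Fin.cons_succ, Fin.append_right]
  have hEK : gm (fun t => (E t : ℚ)) ∈ KK L hL := hneg E hEM
  have hEne : gm (fun t => (E t : ℚ)) ≠ 0 := by
    rw [gm_ne_zero]
    exact Eventually.of_forall fun t => by exact_mod_cast hE0 t
  set Y : Polynomial GG := Polynomial.C (gm (fun t => (E t : ℚ)))⁻¹ * Y0 with hYdef
  have hY : Lift hL W l 1 Y := hY0.smul (inv_mem hEK)
  have hY1 : Y.eval 1 = gm (fun t => (D t : ℚ)) * gm (fun t => (z t : ℚ)) := by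
    rw [hYdef, Polynomial.eval_mul, Polynomial.eval_C, hY2]
    have h1 : gm (fun t => ((E t * (D t * z t) : ℤ) : ℚ)) =
        gm (fun t => (E t : ℚ)) * (gm (fun t => (D t : ℚ)) * gm (fun t => (z t : ℚ))) := by
      rw [gm_mul, gm_mul]
      congr 1
      funext t
      push_cast
      ring
    rw [h1, ← mul_assoc, inv_mul_cancel₀ hEne, one_mul]
  have hing : ∀ g : ℕ → ℤ, Ing bb L (gm (fun t => (g t : ℚ))) := by
    intro g v
    rw [← gm_one, dom_gm]
    intro ε' hε'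
    filter_upwards [L_nonneg hL] with t ht
    rw [av_one hb, mul_one]
    have := Fact.mk (hb v)
    have h1 : av bb (some v) (g t : ℚ) ≤ 1 := by
      simp only [av]
      exact_mod_cast padicNorm.of_int (p := bb v) (g t)
    exact h1.trans (Real.one_le_exp (by positivity))
  have hzQ : QI bb L (gm (fun t => (z t : ℚ))) := by
    refine ⟨fun _ => 1, Negl.one hL, by simp, ?_⟩
    filter_upwards [hrepz z] with t ht
    rw [ht]
    simp only [Int.cast_one, one_mul]
    exact GT.IntS.int bb (z t)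
  have hgne : ∀ g : ℕ → ℤ, (∀ t, g t ≠ 0) → gm (fun t => (g t : ℚ)) ≠ 0 := by
    intro g hg
    rw [gm_ne_zero]
    exact Eventually.of_forall fun t => by exact_mod_cast hg t
  have key := germ3 ncF csF hb hbi hs (by rw [hW]; rfl) m p le_rfl X Y Δ hX hY hΔ
    (gm (fun t => (e t : ℚ))) (hneg e heM) (gm (fun t => (z t : ℚ)))
    (gm (fun t => (B t : ℚ))) hzQ (hgne z hz0) (hgne B hB0)
    (hing z) (by rw [hX2]; exact hing w) (by rw [hΔ2]; exact hing D)
    (by rw [hΔ2]; exact hgne D hD0) (by rw [hΔ2, hY1])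
    (by
      rw [hX2, hΔ2, gm_pow, gm_mul, gm_pow, gm_mul, gm_add]
      congr 1
      funext t
      exact_mod_cast hF t)
  rw [hX2] at key
  have hfin : ∀ᶠ t in (UU : Filter ℕ), |(z t : ℝ)| ^ m ≤ Real.exp (ε / 8 * L t) *
      (|(w t : ℝ)| * |(B t : ℝ)|) ∨
      |(w t : ℝ)| ^ (p + 1) ≤ Real.exp (ε / 8 * L t) * |(B t : ℝ)| := by
    rcases key with h | h
    · rw [gm_pow, gm_mul, dom_gm] at h
      filter_upwards [h (ε / 8) (by positivity)] with t ht
      left
      rw [av_mul hb, av_pow hb] at ht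
      simp only [av] at ht
      push_cast at ht
      exact ht
    · rw [gm_pow, dom_gm] at h
      filter_upwards [h (ε / 8) (by positivity)] with t ht
      right
      rw [av_pow hb] at ht
      simp only [av] at ht
      push_cast at ht
      exact ht
  obtain ⟨t, h1, h2, h3, h4⟩ := (hfin.and ((ev_of_atTop (hL.eventually_gt_atTop 0)).and
    ((ev_of_atTop (hnegE (ε / 8) (by positivity))).and
    (ev_of_atTop (hL.eventually_gt_atTop (Real.log 2 / (ε / 8))))))).exists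
  have hwpos : (0 : ℝ) < |(w t : ℝ)| := by linarith [hw1 t]
  have hBpos : (0 : ℝ) < |(B t : ℝ)| := by linarith [hB1 t]
  have hzpos : (0 : ℝ) < |(z t : ℝ)| := by linarith [hz1 t]
  rcases h1 with h1 | h1
  · have h5 := Real.log_le_log (pow_pos hzpos _) h1
    rw [Real.log_pow, Real.log_mul (Real.exp_pos _).ne' (mul_pos hwpos hBpos).ne',
      Real.log_exp, Real.log_mul hwpos.ne' hBpos.ne'] at h5
    have h6 : (t : ℝ) * (1 + Real.log (M t)) + ε * L t +
        (Real.log |(w t : ℝ)| + Real.log |(B t : ℝ)|) < (m : ℝ) * Real.log |(z t : ℝ)| := hlt t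
    have h7 := htM0 t
    have h8 : 0 < ε * L t := mul_pos hε h2
    linarith
  · -- the first term is not much larger than `B`
    rw [div_lt_iff₀ (by positivity)] at h4
    have h5 : |((D t * z t ^ (m + 1) : ℤ) : ℝ)| ≤ Real.exp (3 * ε / 8 * L t) * |(B t : ℝ)| := by
      have h6 : |((D t * z t ^ (m + 1) : ℤ) : ℝ)| ≤ |(e t : ℝ)| * |(w t : ℝ)| ^ (p + 1) +
          |(B t : ℝ)| := by
        rw [hF t]
        push_cast
        rw [← abs_pow, ← abs_mul]
        exact abs_add_le _ _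
      have h7 : |(e t : ℝ)| * |(w t : ℝ)| ^ (p + 1) ≤ Real.exp (ε / 8 * L t) *
          (Real.exp (ε / 8 * L t) * |(B t : ℝ)|) :=
        mul_le_mul ((heM t).trans h3) h1 (by positivity) (Real.exp_pos _).le
      have h8 : (2 : ℝ) ≤ Real.exp (ε / 8 * L t) := by
        rw [← Real.exp_log (show (0 : ℝ) < 2 by norm_num)]
        exact Real.exp_le_exp.2 (by linarith)
      have h9 : Real.exp (3 * ε / 8 * L t) = Real.exp (ε / 8 * L t) *
          (Real.exp (ε / 8 * L t) * Real.exp (ε / 8 * L t)) := by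
        rw [← Real.exp_add, ← Real.exp_add]
        congr 1
        ring
      rw [h9]
      refine h6.trans ?_
      set g := Real.exp (ε / 8 * L t) with hg
      have h10 : |(B t : ℝ)| ≤ g * (g * |(B t : ℝ)|) := by
        have h11 : 1 ≤ g * g := by nlinarith
        calc |(B t : ℝ)| = 1 * |(B t : ℝ)| := (one_mul _).symm
          _ ≤ (g * g) * |(B t : ℝ)| := mul_le_mul_of_nonneg_right h11 hBpos.le
          _ = g * (g * |(B t : ℝ)|) := by ring
      calc |(e t : ℝ)| * |(w t : ℝ)| ^ (p + 1) + |(B t : ℝ)| ≤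
          g * (g * |(B t : ℝ)|) + g * (g * |(B t : ℝ)|) := add_le_add h7 h10
        _ = 2 * (g * g * |(B t : ℝ)|) := by ring
        _ ≤ g * (g * g * |(B t : ℝ)|) :=
            mul_le_mul_of_nonneg_right h8 (by positivity)
        _ = g * (g * g) * |(B t : ℝ)| := by ring
    have h6 := Real.log_le_log (by linarith [hc1 t]) h5
    rw [Real.log_mul (Real.exp_pos _).ne' hBpos.ne', Real.log_exp] at h6
    have h7 : L t ≤ 3 * ε / 8 * L t + Real.log |(B t : ℝ)| := h6
    have h8 := hLt t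
    have h9 := htM0 t
    have h10 := hlw t
    have h11 : 0 < ε * L t := mul_pos hε h2
    linarith

end Pool.Agent.TH419.VQ
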