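import Mathlib
import Pool.Agent.TH419.VQ.Main
import Pool.Agent.TH419.VQ.Fin3

/-!
# The abc inequality for `e w ^ (p + 1) + B = D z ^ (m + 1)`: `w` and `D` sparse, `B` and `z`
arbitrary
-/

set_option autoImplicit false

open Finset Filter Topology

namespace Pool.Agent.TH419.VQ

open Pool.Agent.TH419.WI Pool.Agent.TH419.HX

/-- the expansion of the product of two powers -/
lemma expand3 {k k' m p : ℕ} (e : ℤ) (a : Fin (k + 1) → ℤ) (u : Fin (k + 1) → ℕ)
    (b : Fin (k' + 1) → ℤ) (v : Fin (k' + 1) → ℕ) :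
    e * (∑ i, a i * (u i : ℤ)) ^ (p + 1) * (∑ i, b i * (v i : ℤ)) ^ m =
      ∑ σ : (Fin (p + 1) → Fin (k + 1)) × (Fin m → Fin (k' + 1)),
        ((e * ∏ i, a (σ.1 i)) * ∏ i, b (σ.2 i)) *
          ((∏ i, (u (σ.1 i) : ℤ)) * ∏ i, (v (σ.2 i) : ℤ)) := by
  rw [Fintype.sum_pow (fun i => a i * (u i : ℤ)) (p + 1),
    Fintype.sum_pow (fun i => b i * (v i : ℤ)) m, mul_assoc,
    Finset.sum_mul_sum, Finset.mul_sum, Fintype.sum_prod_type]
  refine Finset.sum_congr rfl fun σ _ => ?_
  rw [Finset.mul_sum]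
  refine Finset.sum_congr rfl fun τ _ => ?_
  rw [Finset.prod_mul_distrib, Finset.prod_mul_distrib]
  ring

/-- **The abc inequality for `e w ^ (p + 1) + B = D z ^ (m + 1)`**, `w` and `D` sparse. -/
theorem abcS (m p k k' H : ℕ) (S : Finset ℕ) (hS : ∀ p ∈ S, p.Prime) (η ε : ℝ)
    (hη : 0 < η) (hε : 0 < ε) :
    ∃ C : ℝ, ∀ (u : Fin (k + 1) → ℕ) (v : Fin (k' + 1) → ℕ) (a : Fin (k + 1) → ℤ)
      (b : Fin (k' + 1) → ℤ), (∀ i, Smooth S (u i)) → (∀ i, Smooth S (v i)) →
      (∀ i, i ≠ 0 → (u i : ℝ) ≤ (u 0 : ℝ) ^ (1 - η)) →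
      (∀ i, i ≠ 0 → (v i : ℝ) * (u 0 : ℝ) ^ η ≤ v 0) → a 0 ≠ 0 → b 0 ≠ 0 →
      (∀ i, |a i| ≤ H) → (∀ i, |b i| ≤ H) → ∀ e w D z B : ℤ, e ≠ 0 → |e| ≤ H →
      w = ∑ i, a i * (u i : ℤ) → D = ∑ i, b i * (v i : ℤ) →
      D * z ^ (m + 1) = e * w ^ (p + 1) + B → w ≠ 0 → D ≠ 0 → z ≠ 0 → B ≠ 0 →
      (m : ℝ) * Real.log |(z : ℝ)| ≤ C + ε * Real.log |((D * z ^ (m + 1) : ℤ) : ℝ)| +
        (Real.log |(w : ℝ)| + Real.log |(B : ℝ)|) := by
  classical
  let ι : Type := (Fin (p + 1) → Fin (k + 1)) × (Fin m → Fin (k' + 1))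
  have hη'0 : 0 < min η 1 := lt_min hη one_pos
  obtain ⟨N, hN⟩ := nearRoot (ι := ι) S hS (m + 1) (H * H ^ (p + 1) * H ^ m) (by omega)
    (((p : ℝ) + 1) + (m : ℝ) * (2 * p + 4)) (min η 1) (ε / 8) (by positivity) hη'0
    (by positivity)
  obtain ⟨C0, hC0⟩ := fin3 m p (k + 1 + (k' + 1) + N) (GamS S) (gamS_fg S) (ε / 2)
    (by positivity)
  by_contra hcon
  push Not at hcon
  choose u v a b hu hv hdomu hdomv ha0 hb0 haH hbH e w D z B he0 heH hw hD hF hw0 hD0 hz0 hB0
    hlt using fun t : ℕ => hcon (t : ℝ)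
  set η' : ℝ := min η 1 with hη'
  have hη'1 : η' ≤ 1 := min_le_right _ _
  have hu1 : ∀ t i, 1 ≤ u t i := fun t i => Nat.one_le_iff_ne_zero.2 (hu t i).1
  have hv1 : ∀ t i, 1 ≤ v t i := fun t i => Nat.one_le_iff_ne_zero.2 (hv t i).1
  have hdom' : ∀ t i, i ≠ 0 → (u t i : ℝ) ≤ (u t 0 : ℝ) ^ (1 - η') := by
    intro t i hi
    refine (hdomu t i hi).trans ?_
    apply Real.rpow_le_rpow_of_exponent_le
    · exact_mod_cast hu1 t 0
    · have : η' ≤ η := min_le_left _ _
      linarith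
  have hone : ∀ g : ℤ, g ≠ 0 → (1 : ℝ) ≤ |(g : ℝ)| := fun g hg => by
    exact_mod_cast Int.one_le_abs hg
  have hz1 : ∀ t, (1 : ℝ) ≤ |(z t : ℝ)| := fun t => hone _ (hz0 t)
  have hD1 : ∀ t, (1 : ℝ) ≤ |(D t : ℝ)| := fun t => hone _ (hD0 t)
  have hw1 : ∀ t, (1 : ℝ) ≤ |(w t : ℝ)| := fun t => hone _ (hw0 t)
  have hB1 : ∀ t, (1 : ℝ) ≤ |(B t : ℝ)| := fun t => hone _ (hB0 t)
  -- the size of the third term
  let c : ℕ → ℝ := fun t => |((D t * z t ^ (m + 1) : ℤ) : ℝ)|
  have hcdef : ∀ t, c t = |(D t : ℝ)| * |(z t : ℝ)| ^ (m + 1) := fun t => by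
    simp only [c]
    push_cast
    rw [abs_mul, abs_pow]
  have hc1 : ∀ t, (1 : ℝ) ≤ c t := fun t =>
    hone _ (mul_ne_zero (hD0 t) (pow_ne_zero _ (hz0 t)))
  let Lc : ℕ → ℝ := fun t => Real.log (c t)
  have hLc0 : ∀ t, 0 ≤ Lc t := fun t => Real.log_nonneg (hc1 t)
  have hexpLc : ∀ t, Real.exp (Lc t) = c t := fun t => Real.exp_log (by linarith [hc1 t])
  have hlt' : ∀ t : ℕ, (t : ℝ) + ε * Lc t + (Real.log |(w t : ℝ)| + Real.log |(B t : ℝ)|) <
      (m : ℝ) * Real.log |(z t : ℝ)| := hlt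
  have hlw : ∀ t, 0 ≤ Real.log |(w t : ℝ)| := fun t => Real.log_nonneg (hw1 t)
  have hlB : ∀ t, 0 ≤ Real.log |(B t : ℝ)| := fun t => Real.log_nonneg (hB1 t)
  have hmz : ∀ t, (m : ℝ) * Real.log |(z t : ℝ)| ≤ Lc t := by
    intro t
    have h1 : |(z t : ℝ)| ^ m ≤ c t := by
      rw [hcdef]
      calc |(z t : ℝ)| ^ m ≤ |(z t : ℝ)| ^ (m + 1) := pow_le_pow_right₀ (hz1 t) (by omega)
        _ = 1 * |(z t : ℝ)| ^ (m + 1) := (one_mul _).symm
        _ ≤ |(D t : ℝ)| * |(z t : ℝ)| ^ (m + 1) :=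
            mul_le_mul_of_nonneg_right (hD1 t) (by positivity)
    have h2 := Real.log_le_log (by have := hz1 t; positivity) h1
    rwa [Real.log_pow] at h2
  have hLct : Tendsto Lc atTop atTop := by
    refine tendsto_atTop_mono (fun t => ?_) tendsto_natCast_atTop_atTop
    have h1 := hlt' t
    have h2 := hmz t
    have h3 : 0 ≤ ε * Lc t := mul_nonneg hε.le (hLc0 t)
    have h4 := hlw t
    have h5 := hlB t
    linarith
  -- the middle term is small
  have hBc : ∀ᶠ t in atTop, |(B t : ℝ)| ≤ c t / 2 := by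
    filter_upwards [hLct.eventually_ge_atTop (Real.log 2 / ε)] with t ht
    rw [div_le_iff₀ hε] at ht
    have h1 := hlt' t
    have h2 := hmz t
    have h3 := hlw t
    have h4 : (0 : ℝ) ≤ t := Nat.cast_nonneg t
    have h5 : Real.log |(B t : ℝ)| ≤ Lc t - Real.log 2 := by linarith
    have h6 := Real.exp_le_exp.2 h5
    rw [Real.exp_log (by linarith [hB1 t]), Real.exp_sub, hexpLc,
      Real.exp_log (by norm_num)] at h6
    exact h6
  have hewlow : ∀ᶠ t in atTop, c t / 2 ≤ |(e t : ℝ)| * |(w t : ℝ)| ^ (p + 1) := by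
    filter_upwards [hBc] with t ht
    have h1 : c t ≤ |(e t : ℝ)| * |(w t : ℝ)| ^ (p + 1) + |(B t : ℝ)| := by
      simp only [c]
      rw [hF t]
      push_cast
      rw [← abs_pow, ← abs_mul]
      exact abs_add_le _ _
    linarith
  have heH' : ∀ t, |(e t : ℝ)| ≤ H := fun t => by exact_mod_cast heH t
  have hH1 : (1 : ℝ) ≤ H := (hone _ (he0 0)).trans (heH' 0)
  let X : ℕ → ℝ := fun t => |(w t : ℝ)|
  have hXc : ∀ᶠ t in atTop, c t ≤ 2 * H * X t ^ (p + 1) := by
    filter_upwards [hewlow] with t ht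
    have h1 : |(e t : ℝ)| * |(w t : ℝ)| ^ (p + 1) ≤ H * |(w t : ℝ)| ^ (p + 1) :=
      mul_le_mul_of_nonneg_right (heH' t) (by positivity)
    simp only [X]
    linarith
  have hLcX : ∀ᶠ t in atTop, Lc t ≤ Real.log (2 * H) + ((p : ℝ) + 1) * Real.log (X t) := by
    filter_upwards [hXc] with t ht
    have hX0 : 0 < X t := by
      simp only [X]
      linarith [hw1 t]
    have h1 := Real.log_le_log (by linarith [hc1 t]) ht
    rw [Real.log_mul (by positivity) (by positivity), Real.log_pow] at h1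
    push_cast at h1
    exact h1
  have hXt : Tendsto X atTop atTop := by
    have h1 : Tendsto (fun t => (Lc t - Real.log (2 * H)) / ((p : ℝ) + 1)) atTop atTop :=
      Tendsto.atTop_div_const (by positivity) (tendsto_atTop_add_const_right _ _ hLct)
    refine tendsto_atTop_mono' _ ?_ h1
    filter_upwards [hLcX] with t ht
    have h2 : Real.log (X t) ≤ X t := Real.log_le_self (abs_nonneg _)
    rw [div_le_iff₀ (by positivity)]
    have h3 : (0 : ℝ) < (p : ℝ) + 1 := by positivity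
    nlinarith
  have haM : ∀ t i, |(a t i : ℝ)| ≤ (H : ℝ) + 1 := fun t i => by
    have h1 : |(a t i : ℝ)| ≤ H := by exact_mod_cast haH t i
    linarith
  have hbM : ∀ t i, |(b t i : ℝ)| ≤ (H : ℝ) + 1 := fun t i => by
    have h1 : |(b t i : ℝ)| ≤ H := by exact_mod_cast hbH t i
    linarith
  obtain ⟨hL, -, hXup, hXlow, -⟩ := sizes hη'0 u a (fun _ => (H : ℝ) + 1) X
    (fun _ => by linarith) hu1 hdom' haM ha0
    (fun t => by
      simp only [X]
      rw [hw t]
      push_cast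
      rfl) hXt
    (fun ε' hε' => ((tendsto_rpow_atTop hε').comp hXt).eventually_ge_atTop _)
  set L : ℕ → ℝ := fun t => Real.log (u t 0) with hLdef
  have hu0pos : ∀ t, (0 : ℝ) < u t 0 := fun t => by
    have := hu1 t 0
    exact_mod_cast this
  have hu01 : ∀ t, (1 : ℝ) ≤ u t 0 := fun t => by exact_mod_cast hu1 t 0
  have hv0pos : ∀ t, (0 : ℝ) < v t 0 := fun t => by
    have := hv1 t 0
    exact_mod_cast this
  have hL0 : ∀ t, 0 ≤ L t := fun t => Real.log_nonneg (hu01 t)
  have hexpL : ∀ t, Real.exp (L t) = u t 0 := fun t => Real.exp_log (hu0pos t)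
  -- comparison of the two sizes
  have hLcup : ∀ᶠ t in atTop, Lc t ≤ (2 * (p : ℝ) + 3) * L t := by
    filter_upwards [hLcX, hXup, hL.eventually_ge_atTop (Real.log (2 * H))] with t h1 h2 h3
    have hX0 : 0 < X t := by
      simp only [X]
      linarith [hw1 t]
    have h4 := Real.log_le_log hX0 h2
    rw [Real.log_exp] at h4
    have h5 : ((p : ℝ) + 1) * Real.log (X t) ≤ ((p : ℝ) + 1) * (2 * L t) :=
      mul_le_mul_of_nonneg_left h4 (by positivity)
    linarith
  have hLclow : ∀ᶠ t in atTop, 1 / 4 * L t ≤ Lc t := by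
    filter_upwards [hBc, hXlow, hL.eventually_ge_atTop (4 * Real.log 2)] with t h1 h2 h3
    have h4 : X t ≤ 2 * c t := by
      have h5 : |(w t : ℝ)| ≤ |(e t : ℝ)| * |(w t : ℝ)| ^ (p + 1) := by
        calc |(w t : ℝ)| ≤ |(w t : ℝ)| ^ (p + 1) := le_self_pow₀ (hw1 t) (by omega)
          _ ≤ |(e t : ℝ)| * |(w t : ℝ)| ^ (p + 1) :=
              le_mul_of_one_le_left (by positivity) (hone _ (he0 t))
      have h6 : |(e t : ℝ)| * |(w t : ℝ)| ^ (p + 1) ≤ c t + |(B t : ℝ)| := by
        have h7 : (e t : ℝ) * (w t : ℝ) ^ (p + 1) = ((D t * z t ^ (m + 1) : ℤ) : ℝ) - B t := by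
          rw [hF t]
          push_cast
          ring
        rw [← abs_pow, ← abs_mul, h7]
        exact abs_sub _ _
      have h8 := hc1 t
      simp only [X]
      linarith
    have h5 := Real.log_le_log (Real.exp_pos _) (h2.trans h4)
    rw [Real.log_exp, Real.log_mul (by norm_num) (by linarith [hc1 t])] at h5
    have h6 : 1 / 2 * L t ≤ Real.log 2 + Lc t := h5
    linarith
  have hw'0 : ∀ t, 0 ≤ Real.exp (-(η' * L t)) := fun t => (Real.exp_pos _).le
  have hw'1 : ∀ t, Real.exp (-(η' * L t)) ≤ 1 := fun t => by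
    rw [← Real.exp_zero]
    exact Real.exp_le_exp.2 (by have := mul_nonneg hη'0.le (hL0 t); linarith)
  have hdomu' : ∀ t i, i ≠ 0 → (u t i : ℝ) ≤ u t 0 * Real.exp (-(η' * L t)) := by
    intro t i hi
    refine (hdom' t i hi).trans (le_of_eq ?_)
    rw [sub_eq_add_neg, Real.rpow_add (hu0pos t), Real.rpow_one,
      Real.rpow_def_of_pos (hu0pos t)]
    congr 2
    simp only [hLdef]
    ring
  have hule : ∀ t i, (u t i : ℝ) ≤ u t 0 := by
    intro t i
    by_cases hi : i = 0
    · rw [hi]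
    · exact (hdomu' t i hi).trans (mul_le_of_le_one_right (hu0pos t).le (hw'1 t))
  have hdomv' : ∀ t i, i ≠ 0 → (v t i : ℝ) ≤ v t 0 * Real.exp (-(η' * L t)) := by
    intro t i hi
    have h1 := hdomv t i hi
    have h2 : Real.exp (η' * L t) ≤ (u t 0 : ℝ) ^ η := by
      rw [Real.rpow_def_of_pos (hu0pos t)]
      refine Real.exp_le_exp.2 ?_
      have h3 : η' ≤ η := min_le_left _ _
      calc η' * L t ≤ η * L t := mul_le_mul_of_nonneg_right h3 (hL0 t)
        _ = Real.log (u t 0) * η := mul_comm _ _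
    have h3 : (v t i : ℝ) * Real.exp (η' * L t) ≤ v t 0 :=
      (mul_le_mul_of_nonneg_left h2 (Nat.cast_nonneg _)).trans h1
    rw [Real.exp_neg, ← div_eq_mul_inv, le_div_iff₀ (Real.exp_pos _)]
    exact h3
  have hvle : ∀ t i, (v t i : ℝ) ≤ v t 0 := by
    intro t i
    by_cases hi : i = 0
    · rw [hi]
    · exact (hdomv' t i hi).trans (mul_le_of_le_one_right (hv0pos t).le (hw'1 t))
  have haS : ∀ i, Sub L fun t => (a t i : ℝ) := fun i =>
    (Sub.const hL ((H : ℝ) + 1)).mono (Eventually.of_forall fun t => by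
      rw [abs_of_nonneg (by linarith : (0 : ℝ) ≤ (H : ℝ) + 1)]; exact haM t i)
  have hbS : ∀ i, Sub L fun t => (b t i : ℝ) := fun i =>
    (Sub.const hL ((H : ℝ) + 1)).mono (Eventually.of_forall fun t => by
      rw [abs_of_nonneg (by linarith : (0 : ℝ) ≤ (H : ℝ) + 1)]; exact hbM t i)
  have heS : Sub L fun t => (e t : ℝ) :=
    (Sub.const hL ((H : ℝ) + 1)).mono (Eventually.of_forall fun t => by
      rw [abs_of_nonneg (by linarith : (0 : ℝ) ≤ (H : ℝ) + 1)]; linarith [heH' t])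
  -- the size of the cofactor
  have hDlow : ∀ᶠ t in atTop, (v t 0 : ℝ) / 2 ≤ |(D t : ℝ)| := by
    have h1 := W_small hη'0 hL (fun t => v t 0) (fun t (i : Fin k') => v t i.succ)
      (fun t i => b t i.succ) (Eventually.of_forall fun t i => hdomv' t _ (Fin.succ_ne_zero i))
      (fun i => hbS _)
    filter_upwards [h1] with t ht
    have h2 : (D t : ℝ) = (b t 0 : ℝ) * v t 0 + ∑ i : Fin k', (v t i.succ : ℝ) * b t i.succ := by
      rw [hD t]
      push_cast
      rw [Fin.sum_univ_succ]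
      congr 1
      exact Finset.sum_congr rfl fun i _ => mul_comm _ _
    have h3 : (v t 0 : ℝ) ≤ |(b t 0 : ℝ) * v t 0| := by
      rw [abs_mul, abs_of_pos (hv0pos t)]
      have h4 : (1 : ℝ) ≤ |(b t 0 : ℝ)| := hone _ (hb0 t)
      nlinarith [hv0pos t]
    have h4 : |(b t 0 : ℝ) * v t 0| ≤ |(D t : ℝ)| +
        |∑ i : Fin k', (v t i.succ : ℝ) * b t i.succ| := by
      have h5 : (b t 0 : ℝ) * v t 0 = D t - ∑ i : Fin k', (v t i.succ : ℝ) * b t i.succ := by
        rw [h2]; ring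
      rw [h5]
      exact abs_sub _ _
    linarith
  have hvup : ∀ᶠ t in atTop, (v t 0 : ℝ) ≤ Real.exp ((2 * (p : ℝ) + 4) * L t) := by
    filter_upwards [hDlow, hLcup, ev_const_le hL 2 1 one_pos] with t h1 h2 h4
    have h5 : |(D t : ℝ)| ≤ Real.exp ((2 * (p : ℝ) + 3) * L t) := by
      calc |(D t : ℝ)| ≤ |(D t : ℝ)| * |(z t : ℝ)| ^ (m + 1) :=
            le_mul_of_one_le_right (abs_nonneg _) (one_le_pow₀ (hz1 t))
        _ = c t := (hcdef t).symm
        _ = Real.exp (Lc t) := (hexpLc t).symm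
        _ ≤ Real.exp ((2 * (p : ℝ) + 3) * L t) := Real.exp_le_exp.2 h2
    calc (v t 0 : ℝ) ≤ 2 * Real.exp ((2 * (p : ℝ) + 3) * L t) := by linarith
      _ ≤ Real.exp (1 * L t) * Real.exp ((2 * (p : ℝ) + 3) * L t) :=
          mul_le_mul_of_nonneg_right h4 (by positivity)
      _ = Real.exp ((2 * (p : ℝ) + 4) * L t) := by
          rw [← Real.exp_add]
          congr 1
          ring
  -- the data for the theorem on roots
  let σ0 : ι := (fun _ => 0, fun _ => 0)
  let ρ : ℕ → ℕ := fun t => u t 0 ^ (p + 1) * v t 0 ^ m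
  let e0 : ℕ → ℤ := fun t => e t * a t 0 ^ (p + 1) * b t 0 ^ m
  let r : ℕ → ι → ℕ := fun t σ => if σ = σ0 then 1 else
    (∏ i, u t (σ.1 i)) * ∏ i, v t (σ.2 i)
  let lam : ℕ → ι → ℤ := fun t σ => if σ = σ0 then 0 else
    (e0 t).sign * ((e t * ∏ i, a t (σ.1 i)) * ∏ i, b t (σ.2 i))
  have he00 : ∀ t, e0 t ≠ 0 := fun t =>
    mul_ne_zero (mul_ne_zero (he0 t) (pow_ne_zero _ (ha0 t))) (pow_ne_zero _ (hb0 t))
  have hρeq : ∀ t, ((ρ t : ℕ) : ℝ) = (u t 0 : ℝ) ^ (p + 1) * (v t 0 : ℝ) ^ m := fun t => by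
    simp only [ρ]
    push_cast
    rfl
  have hρ1 : ∀ t, (1 : ℝ) ≤ ρ t := fun t => by
    have : 1 ≤ ρ t := Nat.one_le_iff_ne_zero.2 (mul_ne_zero
      (pow_ne_zero _ (by have := hu1 t 0; omega)) (pow_ne_zero _ (by have := hv1 t 0; omega)))
    exact_mod_cast this
  have hr1 : ∀ t σ, (r t σ : ℝ) ≤ ρ t * Real.exp (-(η' * L t)) := by
    intro t σ
    have hvpow : (1 : ℝ) ≤ (v t 0 : ℝ) ^ m := by
      have : (1 : ℝ) ≤ v t 0 := by exact_mod_cast hv1 t 0
      exact one_le_pow₀ this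
    by_cases hσ : σ = σ0
    · simp only [r, if_pos hσ]
      rw [hρeq]
      have h1 : (u t 0 : ℝ) ≤ (u t 0 : ℝ) ^ (p + 1) := le_self_pow₀ (hu01 t) (by omega)
      have h2 : (1 : ℝ) ≤ (u t 0 : ℝ) * Real.exp (-(η' * L t)) := by
        rw [← hexpL, ← Real.exp_add]
        refine Real.one_le_exp ?_
        have := mul_le_mul_of_nonneg_right hη'1 (hL0 t)
        linarith
      push_cast
      calc (1 : ℝ) ≤ (u t 0 : ℝ) * Real.exp (-(η' * L t)) := h2
        _ ≤ (u t 0 : ℝ) ^ (p + 1) * Real.exp (-(η' * L t)) :=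
            mul_le_mul_of_nonneg_right h1 (hw'0 t)
        _ = ((u t 0 : ℝ) ^ (p + 1) * Real.exp (-(η' * L t))) * 1 := (mul_one _).symm
        _ ≤ ((u t 0 : ℝ) ^ (p + 1) * Real.exp (-(η' * L t))) * (v t 0 : ℝ) ^ m :=
            mul_le_mul_of_nonneg_left hvpow (by positivity)
        _ = (u t 0 : ℝ) ^ (p + 1) * (v t 0 : ℝ) ^ m * Real.exp (-(η' * L t)) := by ring
    · simp only [r, if_neg hσ]
      rw [hρeq]
      push_cast
      have hv' : ∏ i, (v t (σ.2 i) : ℝ) ≤ (v t 0 : ℝ) ^ m := prod_le _ (hvle t) σ.2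
      have hun : ∏ i, (u t (σ.1 i) : ℝ) ≤ (u t 0 : ℝ) ^ (p + 1) := prod_le _ (hule t) σ.1
      by_cases hτ : ∃ i, σ.2 i ≠ 0
      · have h1 := prod_le' (v t) _ (hw'0 t) (hvle t) (hdomv' t) σ.2 hτ
        calc (∏ i, (u t (σ.1 i) : ℝ)) * ∏ i, (v t (σ.2 i) : ℝ) ≤
            (u t 0 : ℝ) ^ (p + 1) * ((v t 0 : ℝ) ^ m * Real.exp (-(η' * L t))) :=
              mul_le_mul hun h1 (by positivity) (by positivity)
          _ = (u t 0 : ℝ) ^ (p + 1) * (v t 0 : ℝ) ^ m * Real.exp (-(η' * L t)) := by ring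
      · have hτ2 : ∃ i, σ.1 i ≠ 0 := by
          by_contra hno
          push Not at hno hτ
          apply hσ
          obtain ⟨σ1, σ2⟩ := σ
          have h1 : σ1 = fun _ => 0 := funext hno
          have h2 : σ2 = fun _ => 0 := funext hτ
          rw [h1, h2]
        have h1 := prod_le' (u t) _ (hw'0 t) (hule t) (hdomu' t) σ.1 hτ2
        calc (∏ i, (u t (σ.1 i) : ℝ)) * ∏ i, (v t (σ.2 i) : ℝ) ≤
            ((u t 0 : ℝ) ^ (p + 1) * Real.exp (-(η' * L t))) * (v t 0 : ℝ) ^ m :=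
              mul_le_mul h1 hv' (by positivity) (by positivity)
          _ = (u t 0 : ℝ) ^ (p + 1) * (v t 0 : ℝ) ^ m * Real.exp (-(η' * L t)) := by ring
  have hsignle : ∀ g : ℤ, |((g.sign : ℤ) : ℝ)| ≤ 1 := by
    intro g
    have h1 : |g.sign| ≤ 1 := by
      rcases lt_trichotomy g 0 with h | h | h
      · rw [Int.sign_eq_neg_one_of_neg h]; simp
      · rw [h]; simp
      · rw [Int.sign_eq_one_of_pos h]; simp
    exact_mod_cast h1
  have hlamS : ∀ σ, Sub L fun t => (lam t σ : ℝ) := by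
    intro σ
    by_cases hσ : σ = σ0
    · simp only [lam, if_pos hσ]
      exact_mod_cast Sub.const hL 0
    · simp only [lam, if_neg hσ]
      have h0 : Sub L fun t => (((e0 t).sign : ℤ) : ℝ) :=
        (Sub.const hL 1).mono (Eventually.of_forall fun t => by
          rw [abs_one]
          exact hsignle _)
      have h1 := h0.mul ((heS.mul
        (Sub.prod hL Finset.univ fun i (_ : i ∈ (Finset.univ : Finset (Fin (p + 1)))) =>
          haS (σ.1 i))).mul
        (Sub.prod hL Finset.univ fun i (_ : i ∈ (Finset.univ : Finset (Fin m))) =>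
          hbS (σ.2 i)))
      intro ε' hε'
      filter_upwards [h1 ε' hε'] with t ht
      push_cast
      exact ht
  -- the value
  let N0 : ℕ → ℤ := fun t => e t * w t ^ (p + 1) * D t ^ m
  have hN00 : ∀ t, N0 t ≠ 0 := fun t =>
    mul_ne_zero (mul_ne_zero (he0 t) (pow_ne_zero _ (hw0 t))) (pow_ne_zero _ (hD0 t))
  have hval : ∀ t, ((e0 t).sign : ℤ) * N0 t =
      (e0 t).natAbs * (ρ t : ℤ) + ∑ σ, (r t σ : ℤ) * lam t σ := by
    intro t
    simp only [N0]
    rw [hw t, hD t, expand3]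
    let T : ι → ℤ := fun σ => ((e t * ∏ i, a t (σ.1 i)) *
      ∏ i, b t (σ.2 i)) * ((∏ i, (u t (σ.1 i) : ℤ)) * ∏ i, (v t (σ.2 i) : ℤ))
    have h2 : (e0 t).sign * ∑ σ : ι, T σ =
        (e0 t).sign * T σ0 + ∑ σ : ι, (r t σ : ℤ) * lam t σ := by
      have h3 : ∀ σ : ι, (e0 t).sign * T σ =
          (if σ = σ0 then (e0 t).sign * T σ else 0) + (r t σ : ℤ) * lam t σ := by
        intro σ
        by_cases hσ : σ = σ0
        · simp only [r, lam, if_pos hσ]; ring
        · simp only [r, lam, if_neg hσ, T]; push_cast; ring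
      rw [Finset.mul_sum]
      conv_lhs => rw [Finset.sum_congr rfl fun σ _ => h3 σ]
      rw [Finset.sum_add_distrib, Finset.sum_ite_eq' Finset.univ σ0, if_pos (Finset.mem_univ _)]
    have h3 : (e0 t).sign * T σ0 = (e0 t).natAbs * (ρ t : ℤ) := by
      have h4 : T σ0 = e0 t * (ρ t : ℤ) := by
        simp only [T, σ0, ρ, e0]
        simp
      rw [h4, ← mul_assoc, Int.sign_mul_self_eq_natAbs]
    rw [← h3]
    exact h2
  have hW := W_small hη'0 hL ρ r lam (Eventually.of_forall hr1) hlamS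
  have hρup : ∀ᶠ t in atTop, (ρ t : ℝ) ≤
      Real.exp ((((p : ℝ) + 1) + (m : ℝ) * (2 * p + 4)) * L t) := by
    filter_upwards [hvup] with t ht
    rw [hρeq]
    calc (u t 0 : ℝ) ^ (p + 1) * (v t 0 : ℝ) ^ m ≤
        Real.exp (L t) ^ (p + 1) * Real.exp ((2 * (p : ℝ) + 4) * L t) ^ m := by
          rw [hexpL]
          exact mul_le_mul_of_nonneg_left (pow_le_pow_left₀ (by positivity) ht _) (by positivity)
      _ = Real.exp ((((p : ℝ) + 1) + (m : ℝ) * (2 * p + 4)) * L t) := by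
          rw [← Real.exp_nat_mul, ← Real.exp_nat_mul, ← Real.exp_add]
          congr 1
          push_cast
          ring
  have hsub : ∀ ε' : ℝ, 0 < ε' → ∃ᶠ t in atTop, ∃ (E : ℤ) (w' : Fin N → ℚˣ) (c' : Fin N → ℤ),
        E ≠ 0 ∧ |(E : ℝ)| ≤ Real.exp (ε' * L t) ∧ (∀ j, w' j ∈ GamS S) ∧
        (∀ j, |(c' j : ℝ)| ≤ Real.exp (ε' * L t)) ∧
        (E : ℚ) * (D t * z t).natAbs = ∑ j, ((w' j : ℚˣ) : ℚ) * c' j := by
    refine hN L hL ρ r lam (fun t => (e0 t).natAbs) (fun _ => 1)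
      (fun t => (D t * z t).natAbs)
      (fun t => smooth_mul (smooth_pow (hu t 0) (p + 1)) (smooth_pow (hv t 0) m)) ?_ hρup
      (Eventually.of_forall hr1) hlamS ?_ (fun _ => le_rfl) ?_ ?_
    · intro t σ
      by_cases hσ : σ = σ0
      · simp only [r, if_pos hσ]; exact smooth_one S
      · simp only [r, if_neg hσ]
        exact smooth_mul (smooth_prod _ fun i _ => hu t _) (smooth_prod _ fun i _ => hv t _)
    · intro t
      refine ⟨Int.natAbs_pos.2 (he00 t), ?_⟩
      simp only [e0]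
      rw [Int.natAbs_mul, Int.natAbs_mul, Int.natAbs_pow, Int.natAbs_pow]
      have h0 : (e t).natAbs ≤ H := by
        have := heH t
        rw [Int.abs_eq_natAbs] at this
        exact_mod_cast this
      have h1 : (a t 0).natAbs ≤ H := by
        have := haH t 0
        rw [Int.abs_eq_natAbs] at this
        exact_mod_cast this
      have h2 : (b t 0).natAbs ≤ H := by
        have := hbH t 0
        rw [Int.abs_eq_natAbs] at this
        exact_mod_cast this
      exact Nat.mul_le_mul (Nat.mul_le_mul h0 (Nat.pow_le_pow_left h1 _))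
        (Nat.pow_le_pow_left h2 _)
    · exact_mod_cast Sub.const hL 1
    · filter_upwards [hW, hewlow, hLclow, ev_const_le hL ((2 : ℝ) ^ m) (ε / 8) (by positivity)]
        with t hWt hew hLcl h2m
      have h1 : (((e0 t).sign : ℤ) : ℝ) * (N0 t : ℝ) =
          ((e0 t).natAbs : ℝ) * (ρ t : ℝ) + ∑ σ, (r t σ : ℝ) * lam t σ := by
        have h := congrArg (Int.cast : ℤ → ℝ) (hval t)
        simp only [Int.cast_mul, Int.cast_add, Int.cast_sum, Int.cast_natCast] at h
        exact h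
      have hρt := hρ1 t
      have hWt' := abs_le.1 hWt
      have h2 : (1 : ℝ) ≤ ((e0 t).natAbs : ℝ) := by
        have := Int.natAbs_pos.2 (he00 t)
        exact_mod_cast this
      have h3 : (ρ t : ℝ) ≤ ((e0 t).natAbs : ℝ) * (ρ t : ℝ) := by nlinarith
      have h4 : 0 < (((e0 t).sign : ℤ) : ℝ) * (N0 t : ℝ) := by linarith
      have h5 : (((e0 t).sign : ℤ) : ℝ) * (N0 t : ℝ) = |(N0 t : ℝ)| := by
        rw [← abs_of_pos h4, abs_mul]
        have h6 : |(((e0 t).sign : ℤ) : ℝ)| = 1 := by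
          have h7 : |(e0 t).sign| = 1 := by
            rcases lt_or_gt_of_ne (he00 t) with h | h
            · rw [Int.sign_eq_neg_one_of_neg h]; simp
            · rw [Int.sign_eq_one_of_pos h]; simp
          exact_mod_cast h7
        rw [h6, one_mul]
      have hN01 : (1 : ℝ) ≤ |(N0 t : ℝ)| := hone _ (hN00 t)
      have hm1 : (0 : ℝ) < (m : ℝ) + 1 := by positivity
      -- the real root
      set G : ℝ := |(N0 t : ℝ)| ^ (1 / ((m : ℝ) + 1)) with hG
      have hG1 : 1 ≤ G := Real.one_le_rpow hN01 (by positivity)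
      have hGpow : G ^ (m + 1) = |(N0 t : ℝ)| := by
        rw [hG, ← Real.rpow_natCast, ← Real.rpow_mul (by positivity)]
        push_cast
        rw [one_div, inv_mul_cancel₀ hm1.ne', Real.rpow_one]
      refine ⟨G, hG1, ?_, ?_⟩
      · rw [hGpow, ← h5, h1]
        push_cast
        ring
      · have h8 : (((D t * z t).natAbs : ℕ) : ℝ) = |(D t : ℝ) * z t| := by
          rw [Nat.cast_natAbs]; push_cast; rfl
        have h9 : (((D t * z t).natAbs : ℕ) : ℝ) ^ (m + 1) =
            |(N0 t : ℝ) + (D t : ℝ) ^ m * B t| := by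
          rw [h8, ← abs_pow]
          congr 1
          have h10 : ((D t : ℝ)) * (z t : ℝ) ^ (m + 1) = (e t : ℝ) * (w t : ℝ) ^ (p + 1) + B t := by
            exact_mod_cast hF t
          simp only [N0]
          push_cast
          calc ((D t : ℝ) * z t) ^ (m + 1) = (D t : ℝ) ^ m * ((D t : ℝ) * (z t : ℝ) ^ (m + 1)) := by
                ring
            _ = (e t : ℝ) * (w t : ℝ) ^ (p + 1) * (D t : ℝ) ^ m + (D t : ℝ) ^ m * B t := by
                rw [h10]; ring
        have h10 : |(((D t * z t).natAbs : ℕ) : ℝ) ^ (m + 1) - G ^ (m + 1)| ≤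
            |(D t : ℝ)| ^ m * |(B t : ℝ)| := by
          rw [h9, hGpow]
          have h11 := abs_abs_sub_abs_le ((N0 t : ℝ) + (D t : ℝ) ^ m * B t) (N0 t : ℝ)
          have h12 : (N0 t : ℝ) + (D t : ℝ) ^ m * B t - N0 t = (D t : ℝ) ^ m * B t := by ring
          rw [h12, abs_mul, abs_pow] at h11
          exact h11
        refine h10.trans ?_
        -- the root is not small
        have h11 : (|(D t : ℝ)| * |(z t : ℝ)| / 2) ^ (m + 1) ≤ G ^ (m + 1) := by
          rw [hGpow]
          simp only [N0]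
          push_cast
          rw [abs_mul, abs_mul, abs_pow, abs_pow, div_pow]
          calc (|(D t : ℝ)| * |(z t : ℝ)|) ^ (m + 1) / 2 ^ (m + 1) ≤
              (|(D t : ℝ)| * |(z t : ℝ)|) ^ (m + 1) / 2 := by
                refine div_le_div_of_nonneg_left (by positivity) (by norm_num) ?_
                exact le_self_pow₀ (by norm_num) (by omega)
            _ = (c t / 2) * |(D t : ℝ)| ^ m := by
                rw [hcdef]
                ring
            _ ≤ (|(e t : ℝ)| * |(w t : ℝ)| ^ (p + 1)) * |(D t : ℝ)| ^ m :=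
                mul_le_mul_of_nonneg_right hew (by positivity)
        have h12 : |(D t : ℝ)| * |(z t : ℝ)| / 2 ≤ G :=
          le_of_pow_le_pow_left₀ (by omega) (by linarith) h11
        have h13 : |(D t : ℝ)| ^ m * |(z t : ℝ)| ^ m ≤ 2 ^ m * G ^ m := by
          have h14 := pow_le_pow_left₀ (by positivity) h12 m
          rw [div_pow, mul_pow, div_le_iff₀ (by positivity)] at h14
          linarith
        have h14 : |(B t : ℝ)| ≤ |(z t : ℝ)| ^ m * Real.exp (-(ε / 4 * L t)) := by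
          have h15 : Real.log |(B t : ℝ)| ≤ (m : ℝ) * Real.log |(z t : ℝ)| + -(ε / 4 * L t) := by
            have h16 := hlt' t
            have h17 := hlw t
            have h18 : (0 : ℝ) ≤ t := Nat.cast_nonneg t
            have h19 : ε * (1 / 4 * L t) ≤ ε * Lc t := mul_le_mul_of_nonneg_left hLcl hε.le
            linarith
          have h16 := Real.exp_le_exp.2 h15
          rw [Real.exp_log (by linarith [hB1 t]), Real.exp_add, Real.exp_nat_mul,
            Real.exp_log (by linarith [hz1 t])] at h16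
          exact h16
        have hmm : m + 1 - 1 = m := by omega
        rw [hmm]
        calc |(D t : ℝ)| ^ m * |(B t : ℝ)| ≤
            |(D t : ℝ)| ^ m * (|(z t : ℝ)| ^ m * Real.exp (-(ε / 4 * L t))) :=
              mul_le_mul_of_nonneg_left h14 (by positivity)
          _ = (|(D t : ℝ)| ^ m * |(z t : ℝ)| ^ m) * Real.exp (-(ε / 4 * L t)) := by ring
          _ ≤ (2 ^ m * G ^ m) * Real.exp (-(ε / 4 * L t)) :=
              mul_le_mul_of_nonneg_right h13 (Real.exp_pos _).le
          _ ≤ (Real.exp (ε / 8 * L t) * G ^ m) * Real.exp (-(ε / 4 * L t)) := by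
              refine mul_le_mul_of_nonneg_right ?_ (Real.exp_pos _).le
              exact mul_le_mul_of_nonneg_right h2m (by positivity)
          _ = G ^ m * (Real.exp (ε / 8 * L t) * Real.exp (-(ε / 4 * L t))) := by ring
          _ = G ^ m * Real.exp (-(ε / 8 * L t)) := by
              rw [← Real.exp_add]
              congr 2
              ring
  -- the end of the proof
  set ε' : ℝ := ε / (64 * (|C0| + 1)) with hε'
  have hC0' : 0 ≤ |C0| := abs_nonneg _
  have hεpos : 0 < ε' := by rw [hε']; positivity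
  have hε2 : |C0| * ε' ≤ ε / 64 := by
    rw [hε']
    have h1 : |C0| * (ε / (64 * (|C0| + 1))) = (ε / 64) * (|C0| / (|C0| + 1)) := by
      field_simp
    rw [h1]
    refine mul_le_of_le_one_right (by positivity) ?_
    rw [div_le_one (by linarith)]
    linarith
  obtain ⟨t, ⟨E, w', c', hE0, hEb, hw', hc', hEy⟩, hMt, hL8, hLpos, hLcl⟩ :=
    ((hsub ε' hεpos).and_eventually ((ev_const_le hL ((H : ℝ) + 1) ε' hεpos).and
      ((hL.eventually_ge_atTop (64 * |C0| / ε)).and
      ((hL.eventually_gt_atTop 0).and hLclow)))).exists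
  have hexp1 : 1 ≤ Real.exp (ε' * L t) := by
    rw [← Real.exp_zero]
    exact Real.exp_le_exp.2 (by positivity)
  have hune : ∀ i, ((u t i : ℕ) : ℚ) ≠ 0 := fun i => by exact_mod_cast (hu t i).1
  have hvne : ∀ i, ((v t i : ℕ) : ℚ) ≠ 0 := fun i => by exact_mod_cast (hv t i).1
  have hDz : D t * z t ≠ 0 := mul_ne_zero (hD0 t) (hz0 t)
  have hfin := hC0 (Real.exp (ε' * L t)) hexp1
    (Fin.append (Fin.append (fun i => ⟨Units.mk0 _ (hune i), mem_gamS (hu t i) _ rfl⟩)
      (fun i => ⟨Units.mk0 _ (hvne i), mem_gamS (hv t i) _ rfl⟩))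
      (fun j => ⟨w' j, hw' j⟩))
    (Fin.append (Fin.append (a t) (fun _ => 0)) (fun _ => 0))
    (Fin.append (Fin.append (fun _ => 0) (b t)) (fun _ => 0))
    (Fin.append (Fin.append (fun _ => 0) (fun _ => 0)) c')
    (by
      intro j
      refine Fin.addCases (fun i => ?_) (fun i => ?_) j
      · rw [Fin.append_left]
        refine Fin.addCases (fun i' => ?_) (fun i' => ?_) i
        · rw [Fin.append_left]
          exact (haM t i').trans hMt
        · rw [Fin.append_right]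
          simp only [Int.cast_zero, abs_zero]
          positivity
      · rw [Fin.append_right]
        simp only [Int.cast_zero, abs_zero]
        positivity)
    (by
      intro j
      refine Fin.addCases (fun i => ?_) (fun i => ?_) j
      · rw [Fin.append_left]
        refine Fin.addCases (fun i' => ?_) (fun i' => ?_) i
        · rw [Fin.append_left]
          simp only [Int.cast_zero, abs_zero]
          positivity
        · rw [Fin.append_right]
          exact (hbM t i').trans hMt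
      · rw [Fin.append_right]
        simp only [Int.cast_zero, abs_zero]
        positivity)
    (by
      intro j
      refine Fin.addCases (fun i => ?_) (fun i => ?_) j
      · rw [Fin.append_left]
        refine Fin.addCases (fun i' => ?_) (fun i' => ?_) i
        · rw [Fin.append_left]
          simp only [Int.cast_zero, abs_zero]
          positivity
        · rw [Fin.append_right]
          simp only [Int.cast_zero, abs_zero]
          positivity
      · rw [Fin.append_right]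
        exact hc' i)
    (E * (D t * z t).sign) (e t) (mul_ne_zero hE0 (Int.sign_eq_zero_iff_zero.not.2 hDz))
    (by
      push_cast
      rw [abs_mul]
      calc |(E : ℝ)| * |(((D t * z t).sign : ℤ) : ℝ)| ≤ Real.exp (ε' * L t) * 1 :=
            mul_le_mul hEb (hsignle _) (abs_nonneg _) (Real.exp_pos _).le
        _ = Real.exp (ε' * L t) := mul_one _)
    ((heH' t).trans (by linarith))
    (w t) (D t) (z t) (B t)
    (by
      rw [Fin.sum_univ_add, Fin.sum_univ_add]
      simp only [Fin.append_left, Fin.append_right, Int.cast_zero, mul_zero,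
        Finset.sum_const_zero, add_zero, Units.val_mk0]
      rw [hw t]
      push_cast
      exact Finset.sum_congr rfl fun i _ => by ring)
    (by
      rw [Fin.sum_univ_add, Fin.sum_univ_add]
      simp only [Fin.append_left, Fin.append_right, Int.cast_zero, mul_zero,
        Finset.sum_const_zero, add_zero, zero_add, Units.val_mk0]
      rw [hD t]
      push_cast
      exact Finset.sum_congr rfl fun i _ => by ring)
    (by
      rw [Fin.sum_univ_add, Fin.sum_univ_add]
      simp only [Fin.append_left, Fin.append_right, Int.cast_zero, mul_zero,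
        Finset.sum_const_zero, zero_add]
      rw [← hEy]
      have h1 : E * (D t * z t).sign * (D t * z t) = E * ((D t * z t).natAbs : ℤ) := by
        rw [mul_assoc, Int.sign_mul_self_eq_natAbs]
      rw [h1]
      simp only [Int.cast_mul, Int.cast_natCast])
    (hF t) (hw0 t) (hD0 t) (hz0 t) (hB0 t)
  rw [Real.log_exp] at hfin
  have h2 := hlt' t
  have h3 : C0 * (1 + ε' * L t) ≤ |C0| * (1 + ε' * L t) :=
    mul_le_mul_of_nonneg_right (le_abs_self _) (by positivity)
  have h4 : |C0| * ε' * L t ≤ ε / 64 * L t := mul_le_mul_of_nonneg_right hε2 hLpos.le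
  have h5 : |C0| ≤ ε / 64 * L t := by
    rw [div_le_iff₀ hε] at hL8
    linarith
  have h6 : (0 : ℝ) ≤ t := Nat.cast_nonneg t
  have h7 : ε / 2 * (1 / 4 * L t) ≤ ε / 2 * Lc t :=
    mul_le_mul_of_nonneg_left hLcl (by positivity)
  have h8 : 0 < ε * L t := mul_pos hε hLpos
  have h9 : (m : ℝ) * Real.log |(z t : ℝ)| ≤ C0 * (1 + ε' * L t) + ε / 2 * Lc t +
      (Real.log |(w t : ℝ)| + Real.log |(B t : ℝ)|) := hfin
  nlinarith

end Pool.Agent.TH419.VQ
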